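import Mathlib
import Pool.Agent.Work.MP_77d073_nt.RootStep

set_option autoImplicit false

/-!
COP (M).  Coordinate subspaces of dimension coprime to `n` are never separated by a subfield.

(1) `fib_coprime`: in the situation of `fib_cases` (file Fib.lean) with the hypothesis
`Nat.Coprime I.card n` instead of `hC`.
PROOF.  As in `fib_cases`: `card_J hb hgen hL hinv hJ` gives `J.card = I.card`, and
`Fintype.card (K →+* ℂ) = n = finrank ℚ K`.  Let `σ ≠ τ`, `F = σ.eqLocusField τ`; `finrank_locus`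
gives `1 < finrank F K =: d`, and `finrank ℚ F * d = n`, so `d ∣ n`.  Suppose the claim fails for
`σ, τ`: then whenever `ρ ∈ J`, `ρ' ∉ J` there is `z ∈ F` with `ρ z ≠ ρ' z`, that is: if two
embeddings `ρ, ρ'` of `K` agree on `F` then `ρ ∈ J ↔ ρ' ∈ J`.  So `J` is a union of fibres of the
restriction map from embeddings of `K` to embeddings of `F`; each fibre (the set of extensions of a
given `φ : F →+* ℂ` to `K`) has exactly `d` elements (with `ℂ` an `F`-algebra through `φ`, the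
fibre is `K →ₐ[F] ℂ`, `AlgHom.card F K ℂ`; `K/F` is separable, characteristic 0).  So
`d ∣ J.card = I.card`, hence `d ∣ gcd (I.card) n = 1`, contradiction.

(2) `subspace_co`: same as `SubspaceResult.result` with `Nat.Coprime I.card n` and
`I.Nonempty` instead of `2 ≤ I.card` and the last alternative.
PROOF.  Copy the proof of `SubspaceResult.result`, with `fib_coprime` in place of `fib_cases`.

(3) `exact_block_co`: same as `exact_block` (file RootStep.lean) with `Nat.Coprime P.card n`.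
PROOF.  Copy the first part of the proof of `exact_block` (up to `hkey`) and then apply
`subspace_co` (no case distinction on `P.card`).
-/

namespace Pool.Agent.Work.MP_77d073_nt

open NumberField NumberField.Units Module Filter Topology

private theorem fiber_card {K : Type*} [Field K] [NumberField K] (F : Subfield K)
    (φ : F →+* ℂ) [DecidablePred fun ρ : K →+* ℂ => ρ.comp F.subtype = φ] :
    (Finset.univ.filter fun ρ : K →+* ℂ => ρ.comp F.subtype = φ).card = finrank F K := by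
  let _ : Algebra F ℂ := φ.toAlgebra
  have _ : FiniteDimensional F K := Module.Finite.of_restrictScalars_finite ℚ F K
  rw [← AlgHom.card F K ℂ, ← Fintype.card_subtype]
  exact Fintype.card_congr
    { toFun := fun ρ : {ρ : K →+* ℂ // ρ.comp F.subtype = φ} =>
        ({ ρ.1 with commutes' := fun r => RingHom.congr_fun ρ.2 r } : K →ₐ[F] ℂ)
      invFun := fun f => ⟨f.toRingHom, RingHom.ext fun r => f.commutes r⟩
      left_inv := fun ρ => rfl
      right_inv := fun f => rfl }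

theorem fib_coprime {n : ℕ} {K : Type*} [Field K] [NumberField K]
    {b : Basis (Fin n) ℚ K} {θ : K} {B : Matrix (Fin n) (Fin n) ℚ}
    (hb : ∀ k, ∑ j, (B j k : K) * b j = θ * b k)
    (hgen : ∀ z : K, ∃ f : Polynomial ℚ, Polynomial.aeval θ f = z)
    {L : Fin n → Fin n → ℝ} (hL : LinearIndependent ℝ L) {I : Finset (Fin n)}
    (hI : I.Nonempty) (hI' : I ≠ Finset.univ)
    (hinv : ∀ x : Fin n → ℝ, (∀ i ∈ I, ∑ j, L i j * x j = 0) →
      ∀ i ∈ I, ∑ j, L i j * ((B.map (Rat.cast : ℚ → ℝ)).mulVec x) j = 0)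
    {J : Finset (K →+* ℂ)} (hJ : ∀ σ, σ ∈ J ↔ ∃ i ∈ I, coef b L i σ ≠ 0)
    (hco : Nat.Coprime I.card n) :
    ∀ σ τ : K →+* ℂ, σ ≠ τ → ∃ ρ ∈ J, ∃ ρ' ∉ J, ∀ z : K, σ z = τ z → ρ z = ρ' z := by
  classical
  obtain ⟨hJI, -⟩ := card_J hb hgen hL hinv hJ
  intro σ τ hστ
  by_contra hcon
  push Not at hcon
  set F : Subfield K := σ.eqLocusField τ with hF
  have h1 : 1 < finrank F K := finrank_locus hστ
  have h2 : finrank ℚ F * finrank F K = n := by
    rw [Module.finrank_mul_finrank ℚ F K, Module.finrank_eq_card_basis b, Fintype.card_fin]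
  have hclosed : ∀ ρ ∈ J, ∀ ρ' : K →+* ℂ, ρ.comp F.subtype = ρ'.comp F.subtype → ρ' ∈ J := by
    intro ρ hρ ρ' h
    by_contra hρ'
    obtain ⟨z, hz, hne⟩ := hcon ρ hρ ρ' hρ'
    exact hne (RingHom.congr_fun h ⟨z, hz⟩)
  have hdvd : finrank F K ∣ J.card := by
    have hsum : J.card = ∑ φ ∈ J.image (fun ρ : K →+* ℂ => ρ.comp F.subtype),
        (J.filter fun ρ => ρ.comp F.subtype = φ).card :=
      Finset.card_eq_sum_card_image (fun ρ : K →+* ℂ => ρ.comp F.subtype) J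
    rw [hsum]
    refine Finset.dvd_sum fun φ hφ => ?_
    obtain ⟨ρ0, hρ0, hφ0⟩ := Finset.mem_image.mp hφ
    have h3 : (J.filter fun ρ => ρ.comp F.subtype = φ) =
        Finset.univ.filter fun ρ : K →+* ℂ => ρ.comp F.subtype = φ := by
      ext ρ
      simp only [Finset.mem_filter, Finset.mem_univ, true_and]
      constructor
      · exact fun h => h.2
      · exact fun h => ⟨hclosed ρ0 hρ0 ρ (hφ0.trans h.symm), h⟩
    rw [h3, fiber_card F φ]
  have h4 : finrank F K ∣ 1 := by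
    rw [← hco.gcd_eq_one]
    exact Nat.dvd_gcd (hJI ▸ hdvd) ⟨_, by rw [mul_comm]; exact h2.symm⟩
  have h5 := Nat.le_of_dvd one_pos h4
  omega

theorem subspace_co {n : ℕ} (hn : 3 ≤ n) {L : Fin n → Fin n → ℝ} (hL : LinearIndependent ℝ L)
    (hν : ∃ c : ℝ, 0 < c ∧ ∀ p : Fin n → ℤ, p ≠ 0 → c ≤ |∏ i, ∑ j, L i j * (p j : ℝ)|)
    {M : ℕ → Matrix (Fin n) (Fin n) ℤ} {t : ℕ → Fin n → ℝ} {L' : Fin n → Fin n → ℝ}
    (hM : ∀ k, (M k).det ≠ 0) (ht : ∀ k, ∏ i, t k i = 1)
    (hlim : ∀ i j, Tendsto (fun k => t k i * ∑ l, L i l * (M k l j : ℝ)) atTop (𝓝 (L' i j)))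
    {I : Finset (Fin n)} (hI : I.Nonempty) (hI' : I ≠ Finset.univ) (hco : Nat.Coprime I.card n)
    {B : Matrix (Fin n) (Fin n) ℚ} (hB : Irreducible B.charpoly)
    (hinv : ∀ x : Fin n → ℝ, (∀ i ∈ I, ∑ j, L' i j * x j = 0) →
      ∀ i ∈ I, ∑ j, L' i j * ((B.map (Rat.cast : ℚ → ℝ)).mulVec x) j = 0) :
    Root.Cn L := by
  classical
  obtain ⟨c, hc0, hc⟩ := hν
  obtain ⟨K, _, _, b, θ, hb, hgen⟩ := field_of_matrix B hB
  have hL' := lim_li hL hM ht hlim
  set J : Finset (K →+* ℂ) := Finset.univ.filter fun σ => ∃ i ∈ I, coef b L' i σ ≠ 0 with hJ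
  have hJmem : ∀ σ, σ ∈ J ↔ ∃ i ∈ I, coef b L' i σ ≠ 0 := by
    intro σ
    simp [hJ]
  obtain ⟨A, hA1, hA2, hA3, hA4⟩ := rigid_core hn b hL hc0 hc hM ht hlim I J
    (card_J hb hgen hL' hinv hJmem).1 hI hI' hJmem
    (fib_coprime hb hgen hL' hI hI' hinv hJmem hco)
  refine ⟨A, hA1, hA2, hA3, fun i x hx => ?_⟩
  obtain ⟨μ', hμ'⟩ := hA4 i
  rw [hμ', hx, mul_zero]

theorem Root.exact_block_co {n : ℕ} (hn : 3 ≤ n) {L : Fin n → Fin n → ℝ}
    (hL : LinearIndependent ℝ L) {c : ℝ} (hc : 0 < c)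
    (hlow : ∀ p : Fin n → ℤ, p ≠ 0 → c ≤ |∏ i, ∑ j, L i j * (p j : ℝ)|)
    (hnot : ¬ Root.Cn L) (P : Finset (Fin n)) (hP : P.Nonempty) (hP' : Pᶜ.Nonempty)
    (hco : Nat.Coprime P.card n)
    {z : Fin n → Fin n → ℝ} (hz : z ∈ closure (orb L)) {M : Matrix (Fin n) (Fin n) ℤ}
    (hirr : Irreducible (M.map (Int.castRingHom ℚ)).charpoly)
    {G : Matrix (Fin n) (Fin n) ℝ} {t : Fin n → ℝ} (ht : ∀ i, t i ≠ 0)
    (hrel : Root.ac G z = tr z M t) : ∃ a ∈ P, ∃ b ∉ P, G a b ≠ 0 := by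
  classical
  by_contra hcon
  push Not at hcon
  obtain ⟨N, s, hN, hs, hlim⟩ := mem_closure_orb hz
  have hkey : ∀ x : Fin n → ℝ, (∀ a ∈ P, ∑ j, z a j * x j = 0) → ∀ a ∈ P,
      ∑ j, z a j * (((M.map (Int.castRingHom ℚ)).map (Rat.cast : ℚ → ℝ)).mulVec x) j = 0 := by
    intro x hx a ha
    have h1 : ∀ l, (((M.map (Int.castRingHom ℚ)).map (Rat.cast : ℚ → ℝ)).mulVec x) l =
        ∑ j, (M l j : ℝ) * x j := by
      intro l
      simp [Matrix.mulVec, dotProduct]
    simp_rw [h1]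
    have h2 := tr_sum z M t a x
    rw [← hrel] at h2
    have h3 : ∑ j, Root.ac G z a j * x j = 0 := by
      have h4 : ∑ j, Root.ac G z a j * x j = ∑ b, G a b * ∑ j, z b j * x j := by
        simp only [Root.ac, Finset.sum_mul, Finset.mul_sum]
        rw [Finset.sum_comm]
        refine Finset.sum_congr rfl fun b _ => Finset.sum_congr rfl fun j _ => ?_
        ring
      rw [h4]
      refine Finset.sum_eq_zero fun b _ => ?_
      by_cases hb : b ∈ P
      · rw [hx b hb, mul_zero]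
      · rw [hcon a ha b hb, zero_mul]
    rw [h3] at h2
    exact (mul_eq_zero.mp h2.symm).resolve_left (ht a)
  refine hnot (subspace_co hn hL ⟨c, hc, hlow⟩ (fun k => (hN k).ne_zero) hs hlim hP ?_ hco
    (B := M.map (Int.castRingHom ℚ)) hirr hkey)
  intro h
  rw [h, Finset.compl_univ] at hP'
  exact Finset.not_nonempty_empty hP'

end Pool.Agent.Work.MP_77d073_nt
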