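import Mathlib
import Pool.Agent.Work.MP_77d073_nt.RootDefs

set_option autoImplicit false

/-!
Walls: scalings with `t i = t k`, their orbit closures, and closed sets invariant under them.
-/

namespace Pool.Agent.Work.MP_77d073_nt.Root

open Filter Topology Pool.Agent.Work.MP_77d073_nt

/-- The systems `t_a L_a ∘ M` with `M` unimodular, `∏ t = 1` and `t i = t k`. -/
def worb {n : ℕ} (i k : Fin n) (L : Fin n → Fin n → ℝ) : Set (Fin n → Fin n → ℝ) :=
  {L' | ∃ (M : Matrix (Fin n) (Fin n) ℤ) (t : Fin n → ℝ),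
    Uni M ∧ ∏ a, t a = 1 ∧ t i = t k ∧ L' = tr L M t}

/-- Closed and invariant under the scalings of the wall `t i = t k`. -/
structure WI {n : ℕ} (i k : Fin n) (S : Set (Fin n → Fin n → ℝ)) : Prop where
  closed : IsClosed S
  inv : ∀ L ∈ S, ∀ (M : Matrix (Fin n) (Fin n) ℤ) (t : Fin n → ℝ), Uni M → ∏ a, t a = 1 →
    t i = t k → tr L M t ∈ S

theorem self_mem_worb {n : ℕ} (i k : Fin n) (L : Fin n → Fin n → ℝ) : L ∈ worb i k L :=
  ⟨1, 1, Or.inl (by simp), by simp, rfl, (tr_one L).symm⟩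

theorem worb_WI {n : ℕ} (i k : Fin n) (L : Fin n → Fin n → ℝ) : WI i k (closure (worb i k L)) := by
  refine ⟨isClosed_closure, fun L' hL' M t hM ht hik => ?_⟩
  have h1 : Set.MapsTo (fun L' : Fin n → Fin n → ℝ => tr L' M t) (worb i k L) (worb i k L) := by
    rintro L'' ⟨M', t', hM', ht', hik', rfl⟩
    refine ⟨M' * M, t * t', hM'.mul hM, ?_, ?_, tr_tr _ _ _ _ _⟩
    · simp [Finset.prod_mul_distrib, ht, ht']
    · simp [hik, hik']
  exact h1.closure (tr_cont M t) hL'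

theorem WI.worb_sub {n : ℕ} {i k : Fin n} {S : Set (Fin n → Fin n → ℝ)} (hS : WI i k S)
    {L : Fin n → Fin n → ℝ} (hL : L ∈ S) : closure (worb i k L) ⊆ S := by
  apply closure_minimal _ hS.closed
  rintro L' ⟨M, t, hM, ht, hik, rfl⟩
  exact hS.inv L hL M t hM ht hik

theorem worb_sub_orb {n : ℕ} (i k : Fin n) (L : Fin n → Fin n → ℝ) : worb i k L ⊆ orb L := by
  rintro L' ⟨M, t, hM, ht, -, rfl⟩
  exact ⟨M, t, hM, ht, rfl⟩

/-- Applying a scaling to a closure of a wall orbit. -/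
theorem worb_scale {n : ℕ} {i k : Fin n} {L L' : Fin n → Fin n → ℝ} {t : Fin n → ℝ}
    (h : L' ∈ closure (worb i k L)) : tr L' 1 t ∈ closure (worb i k (tr L 1 t)) := by
  have h1 : Set.MapsTo (fun L' : Fin n → Fin n → ℝ => tr L' 1 t) (worb i k L)
      (worb i k (tr L 1 t)) := by
    rintro L'' ⟨M', t', hM', ht', hik', rfl⟩
    refine ⟨M', t', hM', ht', hik', ?_⟩
    change tr (tr L M' t') 1 t = _
    rw [tr_tr, tr_tr, mul_one, one_mul, mul_comm t t']
  exact h1.closure (tr_cont 1 t) h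

end Pool.Agent.Work.MP_77d073_nt.Root
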