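import Mathlib
import Pool.Agent.Work.MP_77d073_nt.Wall.Defs

set_option autoImplicit false

/-!
BND (M).  If a closed set `M`, invariant under the wall `t i = t k`, is also invariant under one
scaling `t` with `t i / t k = λ > 0`, `λ ≠ 1` and its inverse, then the full orbit closure of every
`y ∈ M` is contained in `{a m : m ∈ M, ∏ a = 1}`.

PROOF.  First `tr m 1 (t ^ l) ∈ M` for all `m ∈ M` and `l : ℤ` (induction in both directions;
`tr_tr`; `t⁻¹` is the pointwise inverse, `t a ≠ 0` since `∏ t = 1`).  Replacing `t` by `t⁻¹` we may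
assume `λ < 1`.  Let `z ∈ closure (orb y)`; by `mem_closure_orb` there are unimodular `N j` and
`a j` with `∏ a j = 1` and `tr y (N j) (a j) → z`.  Put `q j = a j i / a j k ≠ 0`.  There are `l j : ℤ` and
`ρ j ∈ [λ, 1]` with `|q j| = λ ^ (l j) * ρ j` (take `l j = ⌊log |q j| / log λ⌋`, then
`log ρ j = log |q j| - l j log λ ∈ (log λ, 0]` because `log λ < 0`).  With `ε j = sign (q j)` let
`r j : Fin n → ℝ` be `ε j ρ j` at `i`, `ε j / ρ j` at `m` (the third index, `m ≠ i, k`) and `1`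
elsewhere; `∏ r j = 1`.  Then `w j = a j * (t ^ (l j))⁻¹ * (r j)⁻¹` has `∏ = 1` and
`w j i / w j k = q j / (λ ^ (l j) ε j ρ j) = 1`.  So
`m' j := tr y (N j) (w j * t ^ (l j)) = tr (tr y 1 (t ^ (l j))) (N j) (w j) ∈ M`, and
`tr y (N j) (a j) = tr (m' j) 1 (r j)`, i.e. `m' j = tr (tr y (N j) (a j)) 1 (r j)⁻¹`.  The `r j`
lie in a compact set (`ε j = ± 1`, `ρ j ∈ [λ, 1]`), so along a subsequence `ε j` is constant and
`ρ j → ρ ∈ [λ, 1]`, `r j → r` (same form, `∏ r = 1`), and `m' j → tr z 1 r⁻¹ ∈ M` (closed).  So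
`z = tr (tr z 1 r⁻¹) 1 r`.
-/

namespace Pool.Agent.Work.MP_77d073_nt.Root

open Filter Topology Pool.Agent.Work.MP_77d073_nt

private theorem scal_nat {n : ℕ} {M : Set (Fin n → Fin n → ℝ)} {s : Fin n → ℝ}
    (hs : ∀ y ∈ M, tr y 1 s ∈ M) (l : ℕ) : ∀ y ∈ M, tr y 1 (s ^ l) ∈ M := by
  induction l with
  | zero =>
    intro y hy
    rw [pow_zero, tr_one]
    exact hy
  | succ l ih =>
    intro y hy
    have h1 := hs _ (ih y hy)
    rwa [tr_tr, one_mul, ← pow_succ'] at h1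

private theorem scal_int {n : ℕ} {M : Set (Fin n → Fin n → ℝ)} {s : Fin n → ℝ}
    (hs : ∀ y ∈ M, tr y 1 s ∈ M) (hs' : ∀ y ∈ M, tr y 1 s⁻¹ ∈ M) (l : ℤ) :
    ∀ y ∈ M, tr y 1 (s ^ l) ∈ M := by
  intro y hy
  obtain ⟨k, rfl | rfl⟩ := l.eq_nat_or_neg
  · rw [zpow_natCast]
    exact scal_nat hs k y hy
  · rw [zpow_neg, zpow_natCast, ← inv_pow]
    exact scal_nat hs' k y hy

/-- `c` at `i`, `c⁻¹` at `m` -/
private noncomputable def rr {n : ℕ} (i m : Fin n) (c : ℝ) (a : Fin n) : ℝ :=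
  if a = i then c else if a = m then c⁻¹ else 1

private theorem rr_prod {n : ℕ} {i m : Fin n} (him : m ≠ i) {c : ℝ} (hc : c ≠ 0) :
    ∏ a, rr i m c a = 1 := by
  rw [Finset.prod_eq_mul i m him.symm]
  · rw [rr, if_pos rfl, rr, if_neg him, if_pos rfl, mul_inv_cancel₀ hc]
  · rintro a - ⟨h1, h2⟩
    rw [rr, if_neg h1, if_neg h2]
  · intro h
    exact absurd (Finset.mem_univ _) h
  · intro h
    exact absurd (Finset.mem_univ _) h

private theorem rr_mul {n : ℕ} {i m : Fin n} {c : ℝ} (hc : c ≠ 0) :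
    rr i m c * rr i m c⁻¹ = 1 := by
  funext a
  rw [Pi.mul_apply, Pi.one_apply, rr, rr]
  split_ifs
  · exact mul_inv_cancel₀ hc
  · exact mul_inv_cancel₀ (inv_ne_zero hc)
  · exact one_mul 1

private theorem core {n : ℕ} {i k m : Fin n} (hik : i ≠ k) (him : m ≠ i) (hkm : m ≠ k)
    {M : Set (Fin n → Fin n → ℝ)} (hM : WI i k M) {t : Fin n → ℝ} (ht : ∏ a, t a = 1)
    (h1 : 1 < t i / t k) (htM : ∀ l : ℤ, ∀ y ∈ M, tr y 1 (t ^ l) ∈ M)
    {y : Fin n → Fin n → ℝ} (hy : y ∈ M) {z : Fin n → Fin n → ℝ} (hz : z ∈ closure (orb y)) :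
    ∃ w ∈ M, ∃ a : Fin n → ℝ, ∏ b, a b = 1 ∧ z = tr w 1 a := by
  obtain ⟨N, a, hN, ha, hlim⟩ := mem_closure_orb hz
  obtain ⟨b, hb⟩ : ∃ b : ℝ, b = t i / t k := ⟨_, rfl⟩
  have hb1 : 1 < b := by rw [hb]; exact h1
  have hb0 : 0 < b := by linarith
  have ht0 : ∀ c, t c ≠ 0 := fun c hc => by
    rw [Finset.prod_eq_zero (Finset.mem_univ c) hc] at ht
    exact zero_ne_one ht
  have ha0 : ∀ j c, a j c ≠ 0 := fun j c hc => by
    have h2 := ha j
    rw [Finset.prod_eq_zero (Finset.mem_univ c) hc] at h2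
    exact zero_ne_one h2
  have hq0 : ∀ j, 0 < |a j i / a j k| := fun j => abs_pos.2 (div_ne_zero (ha0 j i) (ha0 j k))
  have hl : ∀ j, ∃ l : ℤ, b ^ l ≤ |a j i / a j k| ∧ |a j i / a j k| < b ^ (l + 1) := by
    intro j
    obtain ⟨l, hl⟩ := exists_mem_Ico_zpow (hq0 j) hb1
    exact ⟨l, hl.1, hl.2⟩
  choose l hl1 hl2 using hl
  obtain ⟨c, hc⟩ : ∃ c : ℕ → ℝ, ∀ j, c j = a j i / a j k / b ^ l j := ⟨_, fun j => rfl⟩
  have hbl : ∀ j, 0 < b ^ l j := fun j => zpow_pos hb0 _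
  have hcK : ∀ j, c j ∈ Set.Icc (-b) (-1) ∪ Set.Icc 1 b := by
    intro j
    have e1 : |c j| = |a j i / a j k| / b ^ l j := by rw [hc, abs_div, abs_of_pos (hbl j)]
    have e2 : 1 ≤ |c j| := by rw [e1, le_div_iff₀ (hbl j), one_mul]; exact hl1 j
    have e3 : |c j| ≤ b := by
      rw [e1, div_le_iff₀ (hbl j)]
      have := hl2 j
      rw [zpow_add_one₀ hb0.ne'] at this
      linarith
    rcases le_total 0 (c j) with h2 | h2
    · rw [abs_of_nonneg h2] at e2 e3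
      exact Or.inr ⟨e2, e3⟩
    · rw [abs_of_nonpos h2] at e2 e3
      exact Or.inl ⟨by linarith, by linarith⟩
  have hK : IsCompact (Set.Icc (-b) (-1) ∪ Set.Icc 1 b : Set ℝ) := isCompact_Icc.union isCompact_Icc
  obtain ⟨c', hc'K, φ, hφ, hφlim⟩ := hK.tendsto_subseq hcK
  have hc'0 : c' ≠ 0 := by
    rintro rfl
    rcases hc'K with h2 | h2
    · linarith [h2.2]
    · linarith [h2.1]
  have hc0 : ∀ j, c j ≠ 0 := by
    intro j h0
    rcases hcK j with h2 | h2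
    · rw [h0] at h2
      linarith [h2.2]
    · rw [h0] at h2
      linarith [h2.1]
  have hmem : ∀ j, tr (tr y (N j) (a j)) 1 (rr i m (c j)⁻¹) ∈ M := by
    intro j
    obtain ⟨w, hw⟩ : ∃ w : Fin n → ℝ, w = rr i m (c j)⁻¹ * a j * (t ^ l j)⁻¹ := ⟨_, rfl⟩
    have hwt : w * t ^ l j = rr i m (c j)⁻¹ * a j := by
      rw [hw]
      funext d
      simp only [Pi.mul_apply, Pi.inv_apply, Pi.pow_apply]
      rw [inv_mul_cancel_right₀ (zpow_ne_zero _ (ht0 d))]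
    have hwp : ∏ d, w d = 1 := by
      rw [hw]
      simp only [Pi.mul_apply, Pi.inv_apply, Pi.pow_apply, Finset.prod_mul_distrib]
      rw [rr_prod him (inv_ne_zero (hc0 j)), ha j, Finset.prod_inv_distrib, Finset.prod_zpow, ht]
      simp
    have hwk : w i = w k := by
      rw [hw]
      simp only [Pi.mul_apply, Pi.inv_apply, Pi.pow_apply]
      have e1 : rr i m (c j)⁻¹ i = (c j)⁻¹ := by rw [rr, if_pos rfl]
      have e2 : rr i m (c j)⁻¹ k = 1 := by rw [rr, if_neg hik.symm, if_neg hkm.symm]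
      rw [e1, e2, hc, hb, div_zpow]
      have e3 := ha0 j i
      have e4 := ha0 j k
      have e5 := zpow_ne_zero (l j) (ht0 i)
      have e6 := zpow_ne_zero (l j) (ht0 k)
      field_simp
    have h2 := hM.inv _ (htM (l j) y hy) (N j) w (hN j) hwp hwk
    rw [tr_tr, one_mul, hwt] at h2
    rwa [tr_tr, mul_one]
  have hlim2 : Tendsto (fun j => tr (tr y (N (φ j)) (a (φ j))) 1 (rr i m (c (φ j))⁻¹)) atTop
      (𝓝 (tr z 1 (rr i m c'⁻¹))) := by
    have hcont : Continuous fun p : (Fin n → Fin n → ℝ) × (Fin n → ℝ) => tr p.1 1 p.2 := by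
      unfold tr
      fun_prop
    have h3 : Tendsto (fun j => tr y (N (φ j)) (a (φ j))) atTop (𝓝 z) :=
      tendsto_pi_nhds.2 fun u => tendsto_pi_nhds.2 fun v => (hlim u v).comp hφ.tendsto_atTop
    have h4 : Tendsto (fun j => rr i m (c (φ j))⁻¹) atTop (𝓝 (rr i m c'⁻¹)) := by
      have h5 : Tendsto (fun j => (c (φ j))⁻¹) atTop (𝓝 c'⁻¹) := hφlim.inv₀ hc'0
      refine tendsto_pi_nhds.2 fun u => ?_
      unfold rr
      split_ifs
      · exact h5
      · exact h5.inv₀ (inv_ne_zero hc'0)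
      · exact tendsto_const_nhds
    exact (hcont.tendsto (z, rr i m c'⁻¹)).comp (h3.prodMk_nhds h4)
  refine ⟨tr z 1 (rr i m c'⁻¹), hM.closed.mem_of_tendsto hlim2
    (Eventually.of_forall fun j => hmem (φ j)), rr i m c', rr_prod him hc'0, ?_⟩
  rw [tr_tr, one_mul, rr_mul hc'0, tr_one]

theorem orb_sub_scaled {n : ℕ} {i k m : Fin n} (hik : i ≠ k) (him : m ≠ i) (hkm : m ≠ k)
    {M : Set (Fin n → Fin n → ℝ)} (hM : WI i k M) {t : Fin n → ℝ} (ht : ∏ a, t a = 1)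
    (h0 : 0 < t i / t k) (h1 : t i / t k ≠ 1) (htM : ∀ y ∈ M, tr y 1 t ∈ M)
    (htM' : ∀ y ∈ M, tr y 1 t⁻¹ ∈ M) {y : Fin n → Fin n → ℝ} (hy : y ∈ M)
    {z : Fin n → Fin n → ℝ} (hz : z ∈ closure (orb y)) :
    ∃ w ∈ M, ∃ a : Fin n → ℝ, ∏ b, a b = 1 ∧ z = tr w 1 a := by
  rcases lt_or_gt_of_ne h1 with h2 | h2
  · refine core hik him hkm hM (t := t⁻¹) ?_ ?_ ?_ hy hz
    · simp [ht]
    · rw [Pi.inv_apply, Pi.inv_apply, ← inv_div, inv_inv_div_inv]
      rw [← inv_div]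
      exact (one_lt_inv₀ h0).2 h2
    · intro l
      rw [inv_zpow']
      exact scal_int htM htM' (-l)
  · exact core hik him hkm hM ht h2 (scal_int htM htM') hy hz

end Pool.Agent.Work.MP_77d073_nt.Root
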