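import Mathlib
import Pool.Agent.Work.MP_77d073_nt.Wall.Bnd

set_option autoImplicit false

/-!
MIN (M).  A system which is uniformly recurrent for the wall `t i = t k` and has one multiple
`t y`, `|t i| ≠ |t k|`, in its wall orbit closure has no arrow `i → k` in its full orbit closure.

PROOF.  `M = closure (worb i k y)` (`worb_WI`).
(0) `M ⊆ closure (worb i k m)` for every `m ∈ M` (`hrec` and `WI.worb_sub`).
(1) If `m0 ∈ M` and `tr m0 1 a ∈ M` then `tr m 1 a ∈ M` for all `m ∈ M`: `m ∈ closure (worb m0)`,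
`worb_scale`, `WI.worb_sub`.  Then also `tr m 1 a⁻¹ ∈ M` for all `m ∈ M` (apply the first part to
`m0' = tr m0 1 a`, `a⁻¹`; all `a b ≠ 0` if `∏ a = 1`).  So with `T = t * t` we have
`tr m 1 T ∈ M` and `tr m 1 T⁻¹ ∈ M` for all `m ∈ M`, `λ := T i / T k = (t i / t k)^2 > 0`,
`λ ≠ 1`.
(2) Suppose `Pr (closure (orb y)) i k`: `Z, Z' ∈ closure (orb y)`, `Z' a b = Z a b + [a = i] Z k b`.
There is a third index `m` (`n ≥ 3`).  `orb_sub_scaled` (with `T`): `Z = tr m1 1 a`,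
`Z' = tr m2 1 a'` with `m1, m2 ∈ M`.  With `b = a' / a`, `σ = a k / a i ≠ 0` and
`U s X := fun x j => X x j + if x = i then s * X k j else 0` we get `tr m2 1 b = U σ m1`.
(3) `Φ X := tr (U σ X) 1 b⁻¹` is continuous, `Φ m1 = m2`, and `Φ (tr X N w) = tr (Φ X) N w` whenever
`w i = w k`; so `Φ` maps `worb i k m1` into `M`, hence (closure) `M` into `M`.  In the same way
`Ψ X := U (-σ) (tr X 1 b)` maps `m2` to `m1` and `M` into `M`.
(4) For `l : ℤ` and `m ∈ M`: `T^l Φ (T^{-l} m) = tr (U (λ^l σ) m) 1 b⁻¹ ∈ M` (write `T^l m` for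
`tr m 1 (T ^ l)`, which maps `M` to `M` by (1)), and then `Ψ` of it is `U ((λ^l - 1) σ) m ∈ M`.
Let `S = {s | ∀ m ∈ M, U s m ∈ M}`.  `S` is closed under addition (`U s (U s' X) = U (s + s') X`),
topologically closed (`M` closed, `s ↦ U s m` continuous), `s ∈ S → λ^l s ∈ S` (conjugation by
`T^l`), and contains `s1 := (λ - 1) σ ≠ 0` (`l = 1`) and `(λ⁻¹ - 1) σ = - s1 / λ` (`l = -1`), hence
`- s1`.  So `N λ^l s1 ∈ S` for all `N, l : ℤ`; as `λ ≠ 1`, the numbers `λ^l s1` become arbitrarily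
small, so `S` is dense and therefore `S = ℝ`.
(5) Take `p = Pi.single 0 1` (or any nonzero integer vector) and
`s = - (∑ j, y i j p j) / (∑ j, y k j p j)`; the denominator is not zero because the product of the
forms at `p` is at least `c > 0`.  `U s y ∈ M ⊆ closure (orb y)` (`worb_sub_orb`, `closure_mono`), so
`orb_lower` gives `c ≤ |∏ a, ∑ j, (U s y) a j * p j|`, but the factor `a = i` is zero.
-/

namespace Pool.Agent.Work.MP_77d073_nt.Root

open Filter Topology Pool.Agent.Work.MP_77d073_nt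

private noncomputable def US {n : ℕ} (i k : Fin n) (s : ℝ) (X : Fin n → Fin n → ℝ) :
    Fin n → Fin n → ℝ :=
  fun x j => X x j + if x = i then s * X k j else 0

private theorem tr1 {n : ℕ} (X : Fin n → Fin n → ℝ) (a : Fin n → ℝ) (x j : Fin n) :
    tr X 1 a x j = a x * X x j := by
  unfold tr
  simp [Matrix.one_apply]

private theorem US_cont {n : ℕ} (i k : Fin n) (s : ℝ) : Continuous (US i k s) := by
  refine continuous_pi fun x => continuous_pi fun j => ?_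
  unfold US
  by_cases hx : x = i
  · simp only [hx, if_true]
    fun_prop
  · simp only [hx, if_false]
    fun_prop

private theorem US_cont_s {n : ℕ} (i k : Fin n) (X : Fin n → Fin n → ℝ) :
    Continuous fun s => US i k s X := by
  refine continuous_pi fun x => continuous_pi fun j => ?_
  unfold US
  by_cases hx : x = i
  · simp only [hx, if_true]
    fun_prop
  · simp only [hx, if_false]
    fun_prop

private theorem US_tr {n : ℕ} {i k : Fin n} (s : ℝ) (X : Fin n → Fin n → ℝ)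
    (N : Matrix (Fin n) (Fin n) ℤ) (w : Fin n → ℝ) (hw : w i = w k) :
    US i k s (tr X N w) = tr (US i k s X) N w := by
  funext x j
  unfold US tr
  by_cases hx : x = i
  · simp only [hx, if_true, add_mul, Finset.sum_add_distrib, mul_add, ← hw]
    congr 1
    simp only [mul_assoc]
    rw [← Finset.mul_sum]
    ring
  · simp only [hx, if_false, add_zero]

private theorem US_US {n : ℕ} {i k : Fin n} (hik : i ≠ k) (s s' : ℝ) (X : Fin n → Fin n → ℝ) :
    US i k s (US i k s' X) = US i k (s + s') X := by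
  funext x j
  unfold US
  by_cases hx : x = i
  · simp only [hx, if_true, if_neg hik.symm]
    ring
  · simp only [hx, if_false, add_zero]

private theorem US_zero {n : ℕ} (i k : Fin n) (X : Fin n → Fin n → ℝ) : US i k 0 X = X := by
  funext x j
  unfold US
  simp

private theorem US_conj {n : ℕ} {i k : Fin n} {a : Fin n → ℝ} (ha : ∀ x, a x ≠ 0) (s : ℝ)
    (X : Fin n → Fin n → ℝ) :
    tr (US i k s (tr X 1 a⁻¹)) 1 a = US i k (a i / a k * s) X := by
  funext x j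
  rw [tr1]
  unfold US
  simp only [tr1, Pi.inv_apply]
  have h1 := ha i
  have h2 := ha k
  by_cases hx : x = i
  · simp only [hx, if_true]
    field_simp
  · simp only [hx, if_false, add_zero]
    rw [mul_inv_cancel_left₀ (ha x)]

private theorem keyB {n : ℕ} {i k : Fin n} {y : Fin n → Fin n → ℝ}
    (hrec : ∀ y' ∈ closure (worb i k y), y ∈ closure (worb i k y'))
    {Φ : (Fin n → Fin n → ℝ) → Fin n → Fin n → ℝ} (hΦ : Continuous Φ)
    (hc : ∀ (X : Fin n → Fin n → ℝ) (N : Matrix (Fin n) (Fin n) ℤ) (w : Fin n → ℝ), w i = w k →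
      Φ (tr X N w) = tr (Φ X) N w)
    {m0 : Fin n → Fin n → ℝ} (h0 : m0 ∈ closure (worb i k y))
    (h1 : Φ m0 ∈ closure (worb i k y)) :
    ∀ m ∈ closure (worb i k y), Φ m ∈ closure (worb i k y) := by
  intro m hm
  have h2 : m ∈ closure (worb i k m0) := (worb_WI i k m0).worb_sub (hrec m0 h0) hm
  have h3 : Set.MapsTo Φ (worb i k m0) (worb i k (Φ m0)) := by
    rintro L ⟨N, w, hN, hw, hik, rfl⟩
    exact ⟨N, w, hN, hw, hik, hc _ _ _ hik⟩
  exact (worb_WI i k y).worb_sub h1 (h3.closure hΦ h2)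

private theorem trc {n : ℕ} {i k : Fin n} (a : Fin n → ℝ) (X : Fin n → Fin n → ℝ)
    (N : Matrix (Fin n) (Fin n) ℤ) (w : Fin n → ℝ) (_hw : w i = w k) :
    tr (tr X N w) 1 a = tr (tr X 1 a) N w := by
  rw [tr_tr, tr_tr, mul_one, one_mul, mul_comm a w]

private theorem trinv {n : ℕ} {a : Fin n → ℝ} (ha : ∀ x, a x ≠ 0) (X : Fin n → Fin n → ℝ) :
    tr (tr X 1 a) 1 a⁻¹ = X := by
  funext x j
  rw [tr1, tr1, Pi.inv_apply, inv_mul_cancel_left₀ (ha x)]

private theorem trinv' {n : ℕ} {a : Fin n → ℝ} (ha : ∀ x, a x ≠ 0) (X : Fin n → Fin n → ℝ) :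
    tr (tr X 1 a⁻¹) 1 a = X := by
  funext x j
  rw [tr1, tr1, Pi.inv_apply, mul_inv_cancel_left₀ (ha x)]

theorem wall_min {n : ℕ} (hn : 3 ≤ n) {i k : Fin n} (hik : i ≠ k) {c : ℝ} (hc : 0 < c)
    {y : Fin n → Fin n → ℝ}
    (hlow : ∀ p : Fin n → ℤ, p ≠ 0 → c ≤ |∏ a, ∑ j, y a j * (p j : ℝ)|)
    (hrec : ∀ y' ∈ closure (worb i k y), y ∈ closure (worb i k y'))
    {t : Fin n → ℝ} (ht : ∏ a, t a = 1) (hti : |t i| ≠ |t k|)
    (hty : tr y 1 t ∈ closure (worb i k y)) : ¬ Pr (closure (orb y)) i k := by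
  rintro ⟨Z, hZ, Z', hZ', hZZ⟩
  obtain ⟨M, hMdef⟩ : ∃ M, M = closure (worb i k y) := ⟨_, rfl⟩
  have hW : WI i k M := hMdef ▸ worb_WI i k y
  have hyM : y ∈ M := hMdef ▸ subset_closure (self_mem_worb i k y)
  have hne : ∀ a : Fin n → ℝ, ∏ x, a x = 1 → ∀ x, a x ≠ 0 := by
    intro a ha x h0
    have h := Finset.prod_eq_zero (Finset.mem_univ x) h0
    rw [ha] at h
    exact one_ne_zero h
  have kB : ∀ {Φ : (Fin n → Fin n → ℝ) → Fin n → Fin n → ℝ}, Continuous Φ →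
      (∀ (X : Fin n → Fin n → ℝ) (N : Matrix (Fin n) (Fin n) ℤ) (w : Fin n → ℝ), w i = w k →
        Φ (tr X N w) = tr (Φ X) N w) → ∀ {m0 : Fin n → Fin n → ℝ}, m0 ∈ M → Φ m0 ∈ M →
      ∀ m ∈ M, Φ m ∈ M := by
    intro Φ hΦ hc m0 h0 h1
    rw [hMdef] at h0 h1 ⊢
    exact keyB hrec hΦ hc h0 h1
  rw [← hMdef] at hty
  have ht0 := hne t ht
  have hTt : ∀ m ∈ M, tr m 1 t ∈ M := kB (tr_cont 1 t) (trc t) hyM hty
  have hTt' : ∀ m ∈ M, tr m 1 t⁻¹ ∈ M :=
    kB (tr_cont 1 t⁻¹) (trc t⁻¹) hty (by rw [trinv ht0 y]; exact hyM)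
  obtain ⟨T, hTd⟩ : ∃ T : Fin n → ℝ, T = t * t := ⟨_, rfl⟩
  have hT : ∏ a, T a = 1 := by
    rw [hTd]
    simp [Finset.prod_mul_distrib, ht]
  have hT0 := hne T hT
  have hTM : ∀ m ∈ M, tr m 1 T ∈ M := fun m hm => by
    have h := hTt _ (hTt m hm)
    rw [tr_tr, mul_one] at h
    rw [hTd]
    exact h
  have hTM' : ∀ m ∈ M, tr m 1 T⁻¹ ∈ M := fun m hm => by
    have h := hTt' _ (hTt' m hm)
    rw [tr_tr, mul_one, ← mul_inv] at h
    rw [hTd]
    exact h
  have hi0 := ht0 i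
  have hk0 := ht0 k
  have hlam0 : 0 < T i / T k := by
    rw [hTd]
    change 0 < (t i * t i) / (t k * t k)
    exact div_pos (mul_self_pos.2 hi0) (mul_self_pos.2 hk0)
  have hlam1 : T i / T k ≠ 1 := by
    rw [hTd]
    change (t i * t i) / (t k * t k) ≠ 1
    intro h
    rw [div_eq_one_iff_eq (mul_self_ne_zero.2 hk0)] at h
    exact hti (abs_eq_abs.2 (mul_self_eq_mul_self_iff.1 h))
  obtain ⟨m, hmi, hmk⟩ : ∃ m : Fin n, m ≠ i ∧ m ≠ k := by
    have h1 : (({i, k} : Finset (Fin n))).card < (Finset.univ : Finset (Fin n)).card := by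
      have h2 : (({i, k} : Finset (Fin n))).card ≤ 2 := Finset.card_le_two
      rw [Finset.card_univ, Fintype.card_fin]
      omega
    obtain ⟨m, -, hm⟩ := Finset.exists_mem_notMem_of_card_lt_card h1
    simp only [Finset.mem_insert, Finset.mem_singleton, not_or] at hm
    exact ⟨m, hm.1, hm.2⟩
  obtain ⟨m1, hm1, a, ha, hZa⟩ := orb_sub_scaled hik hmi hmk hW hT hlam0 hlam1 hTM hTM' hyM hZ
  obtain ⟨m2, hm2, a', ha', hZa'⟩ :=
    orb_sub_scaled hik hmi hmk hW hT hlam0 hlam1 hTM hTM' hyM hZ'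
  have ha0 := hne a ha
  have ha0' := hne a' ha'
  obtain ⟨b, hbd⟩ : ∃ b : Fin n → ℝ, b = fun x => a' x / a x := ⟨_, rfl⟩
  have hb0 : ∀ x, b x ≠ 0 := fun x => by
    rw [hbd]
    exact div_ne_zero (ha0' x) (ha0 x)
  obtain ⟨σ, hσd⟩ : ∃ σ : ℝ, σ = a k / a i := ⟨_, rfl⟩
  have hσ0 : σ ≠ 0 := by
    rw [hσd]
    exact div_ne_zero (ha0 k) (ha0 i)
  have key : tr m2 1 b = US i k σ m1 := by
    funext x j
    have h := hZZ x j
    rw [hZa, hZa'] at h
    simp only [tr1] at h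
    rw [tr1, hbd, hσd]
    unfold US
    have h1 := ha0 x
    have h2 := ha0 i
    by_cases hx : x = i
    · subst hx
      simp only [if_true] at h ⊢
      field_simp
      linarith
    · simp only [hx, if_false, add_zero] at h ⊢
      field_simp
      linarith
  have hΦ : ∀ m ∈ M, tr (US i k σ m) 1 b⁻¹ ∈ M := by
    refine kB (Φ := fun X => tr (US i k σ X) 1 b⁻¹) ((tr_cont 1 b⁻¹).comp (US_cont i k σ)) ?_
      hm1 ?_
    · intro X N w hw
      change tr (US i k σ (tr X N w)) 1 b⁻¹ = tr (tr (US i k σ X) 1 b⁻¹) N w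
      rw [US_tr σ X N w hw, trc (i := i) (k := k) b⁻¹ _ N w hw]
    · change tr (US i k σ m1) 1 b⁻¹ ∈ M
      rw [← key, trinv hb0]
      exact hm2
  have hΨ : ∀ m ∈ M, US i k (-σ) (tr m 1 b) ∈ M := by
    refine kB (Φ := fun X => US i k (-σ) (tr X 1 b)) ((US_cont i k (-σ)).comp (tr_cont 1 b)) ?_
      hm2 ?_
    · intro X N w hw
      change US i k (-σ) (tr (tr X N w) 1 b) = tr (US i k (-σ) (tr X 1 b)) N w
      rw [trc (i := i) (k := k) b X N w hw, US_tr (-σ) _ N w hw]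
    · change US i k (-σ) (tr m2 1 b) ∈ M
      rw [key, US_US hik, neg_add_cancel, US_zero]
      exact hm1
  have hS0 : ∀ e : Fin n → ℝ, (∀ x, e x ≠ 0) → (∀ m ∈ M, tr m 1 e ∈ M) →
      (∀ m ∈ M, tr m 1 e⁻¹ ∈ M) → ∀ m ∈ M, US i k (-σ + e i / e k * σ) m ∈ M := by
    intro e he h1 h2 m hm
    have h3 := hΨ _ (h1 _ (hΦ _ (h2 m hm)))
    have h4 : tr (tr (US i k σ (tr m 1 e⁻¹)) 1 b⁻¹) 1 e = tr (US i k (e i / e k * σ) m) 1 b⁻¹ := by
      rw [← US_conj he σ m, tr_tr, tr_tr, mul_comm e b⁻¹]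
    rw [h4, trinv' hb0, US_US hik] at h3
    exact h3
  have hsc : ∀ e : Fin n → ℝ, (∀ x, e x ≠ 0) → (∀ m ∈ M, tr m 1 e ∈ M) →
      (∀ m ∈ M, tr m 1 e⁻¹ ∈ M) → ∀ s : ℝ, (∀ m ∈ M, US i k s m ∈ M) →
      ∀ m ∈ M, US i k (e i / e k * s) m ∈ M := by
    intro e he h1 h2 s hs m hm
    rw [← US_conj he s m]
    exact h1 _ (hs _ (h2 m hm))
  have hTi0 : ∀ x, T⁻¹ x ≠ 0 := fun x => inv_ne_zero (hT0 x)
  have hTMi : ∀ m ∈ M, tr m 1 T⁻¹⁻¹ ∈ M := by
    rw [inv_inv]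
    exact hTM
  obtain ⟨lam, hlamd⟩ : ∃ lam, lam = T i / T k := ⟨_, rfl⟩
  have hlami : T⁻¹ i / T⁻¹ k = lam⁻¹ := by
    rw [hlamd, Pi.inv_apply, Pi.inv_apply, inv_div]
    have := hT0 i
    have := hT0 k
    field_simp
  rw [← hlamd] at hlam0 hlam1
  let S : AddSubgroup ℝ :=
    { carrier := {s | (∀ m ∈ M, US i k s m ∈ M) ∧ ∀ m ∈ M, US i k (-s) m ∈ M}
      add_mem' := by
        rintro s s' ⟨h1, h2⟩ ⟨h3, h4⟩
        refine ⟨fun m hm => ?_, fun m hm => ?_⟩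
        · rw [← US_US hik]
          exact h1 _ (h3 m hm)
        · rw [neg_add, ← US_US hik]
          exact h2 _ (h4 m hm)
      zero_mem' := by
        refine ⟨fun m hm => ?_, fun m hm => ?_⟩
        · rw [US_zero]
          exact hm
        · rw [neg_zero, US_zero]
          exact hm
      neg_mem' := by
        rintro s ⟨h1, h2⟩
        refine ⟨h2, ?_⟩
        rw [neg_neg]
        exact h1 }
  have hmemS : ∀ s, s ∈ S ↔ (∀ m ∈ M, US i k s m ∈ M) ∧ ∀ m ∈ M, US i k (-s) m ∈ M :=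
    fun s => Iff.rfl
  have hSl : ∀ s ∈ S, lam * s ∈ S := by
    intro s hs
    obtain ⟨h1, h2⟩ := (hmemS s).1 hs
    refine (hmemS _).2 ⟨?_, ?_⟩
    · rw [hlamd]
      exact hsc T hT0 hTM hTM' s h1
    · rw [← mul_neg, hlamd]
      exact hsc T hT0 hTM hTM' (-s) h2
  have hSl' : ∀ s ∈ S, lam⁻¹ * s ∈ S := by
    intro s hs
    obtain ⟨h1, h2⟩ := (hmemS s).1 hs
    refine (hmemS _).2 ⟨?_, ?_⟩
    · rw [← hlami]
      exact hsc T⁻¹ hTi0 hTM' hTMi s h1
    · rw [← mul_neg, ← hlami]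
      exact hsc T⁻¹ hTi0 hTM' hTMi (-s) h2
  obtain ⟨s1, hs1d⟩ : ∃ s1, s1 = -σ + lam * σ := ⟨_, rfl⟩
  have hs1 : s1 ∈ S := by
    refine (hmemS _).2 ⟨?_, ?_⟩
    · rw [hs1d, hlamd]
      exact hS0 T hT0 hTM hTM'
    · have h1 := hS0 T⁻¹ hTi0 hTM' hTMi
      have h2 := hsc T hT0 hTM hTM' _ h1
      rw [hlami, ← hlamd] at h2
      have h3 : lam * (-σ + lam⁻¹ * σ) = -s1 := by
        rw [hs1d]
        have := hlam0.ne'
        field_simp
        ring
      rw [h3] at h2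
      exact h2
  have hs10 : s1 ≠ 0 := by
    rw [hs1d]
    intro h
    have h1 : (lam - 1) * σ = 0 := by linarith
    rcases mul_eq_zero.1 h1 with h2 | h2
    · exact hlam1 (by linarith)
    · exact hσ0 h2
  obtain ⟨μ, hμ0, hμ1, hμS⟩ : ∃ μ : ℝ, 0 < μ ∧ μ < 1 ∧ ∀ s ∈ S, μ * s ∈ S := by
    rcases lt_or_gt_of_ne hlam1 with h | h
    · exact ⟨lam, hlam0, h, hSl⟩
    · exact ⟨lam⁻¹, inv_pos.2 hlam0, inv_lt_one_of_one_lt₀ h, hSl'⟩
  have habs : |s1| ∈ S := by
    rcases abs_choice s1 with h | h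
    · rw [h]
      exact hs1
    · rw [h]
      exact S.neg_mem hs1
  have hpow : ∀ N : ℕ, μ ^ N * |s1| ∈ S := by
    intro N
    induction N with
    | zero =>
      rw [pow_zero, one_mul]
      exact habs
    | succ N ih =>
      have h := hμS _ ih
      rw [← mul_assoc, ← pow_succ'] at h
      exact h
  have hdense : Dense (S : Set ℝ) := by
    refine AddSubgroup.dense_of_not_isolated_zero S fun ε hε => ?_
    have hpos : 0 < |s1| := abs_pos.2 hs10
    obtain ⟨N, hN⟩ := exists_pow_lt_of_lt_one (div_pos hε hpos) hμ1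
    exact ⟨μ ^ N * |s1|, hpow N, mul_pos (pow_pos hμ0 N) hpos, (lt_div_iff₀ hpos).1 hN⟩
  have hclosed : IsClosed {s : ℝ | ∀ m ∈ M, US i k s m ∈ M} := by
    have h1 : {s : ℝ | ∀ m ∈ M, US i k s m ∈ M} = ⋂ m ∈ M, (fun s => US i k s m) ⁻¹' M := by
      ext s
      simp
    rw [h1]
    exact isClosed_biInter fun m _ => hW.closed.preimage (US_cont_s i k m)
  have hall : ∀ s : ℝ, ∀ m ∈ M, US i k s m ∈ M := by
    intro s
    have h1 : closure (S : Set ℝ) ⊆ {s : ℝ | ∀ m ∈ M, US i k s m ∈ M} :=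
      closure_minimal (fun s hs => ((hmemS s).1 hs).1) hclosed
    exact h1 (hdense s)
  obtain ⟨p, hpd⟩ : ∃ p : Fin n → ℤ, p = Pi.single i 1 := ⟨_, rfl⟩
  have hp0 : p ≠ 0 := by
    rw [hpd]
    intro h
    have h1 := congrFun h i
    rw [Pi.single_eq_same] at h1
    exact one_ne_zero h1
  have hk : ∑ j, y k j * (p j : ℝ) ≠ 0 := by
    intro h
    have h1 := hlow p hp0
    rw [Finset.prod_eq_zero (Finset.mem_univ k) h, abs_zero] at h1
    linarith
  obtain ⟨s, hsd⟩ : ∃ s, s = -(∑ j, y i j * (p j : ℝ)) / ∑ j, y k j * (p j : ℝ) := ⟨_, rfl⟩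
  have h1 := hall s y hyM
  rw [hMdef] at h1
  have h2 := orb_lower (closure_mono (worb_sub_orb i k y) h1) hlow p hp0
  have h3 : ∑ j, US i k s y i j * (p j : ℝ) = 0 := by
    have h4 : ∀ j, US i k s y i j * (p j : ℝ) = y i j * (p j : ℝ) + s * (y k j * (p j : ℝ)) := by
      intro j
      unfold US
      simp only [if_true]
      ring
    simp_rw [h4]
    rw [Finset.sum_add_distrib, ← Finset.mul_sum, hsd, div_mul_cancel₀ _ hk]
    ring
  rw [Finset.prod_eq_zero (Finset.mem_univ i) h3, abs_zero] at h2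
  linarith

end Pool.Agent.Work.MP_77d073_nt.Root
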