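import Mathlib
import Pool.Agent.Work.MP_77d073_nt.Fib

set_option autoImplicit false

/-!
DEN (M).  In a totally real field of degree `n ≥ 3` the numbers `log |σ u| - log |τ u|`
(`u` a unit, `σ ≠ τ` fixed embeddings) are dense in `ℝ`.

PROOF.  They are the range of a homomorphism `α : Additive (𝓞 K)ˣ →+ ℝ`.  By
`AddSubgroup.dense_or_cyclic` it is dense or cyclic; suppose it is cyclic.  Let `G` be the
`ℤ`-module `Additive (𝓞 K)ˣ` (or `Additive ((𝓞 K)ˣ ⧸ torsion K)`, `α` kills torsion), of finrank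
`rank K = card (InfinitePlace K) - 1 = n - 1` (`NumberField.Units.finrank_modTorsion`; all
embeddings are real by `hreal`, so the number of infinite places is `finrank ℚ K = n`).
Rank-nullity: `finrank (ker α) ≥ n - 1 - 1`.  Let `F = σ.eqLocusField τ`, `d = finrank F K ≥ 2`
(`finrank_locus` in Fib.lean), `finrank ℚ F * d = n`, so `finrank ℚ F ≤ n / 2`.  If `u ∈ ker α`
then `‖σ u‖ = ‖τ u‖`, both `σ u` and `τ u` are real, so `σ (u^2) = τ (u^2)`, i.e. `u^2 ∈ F`, and
`u^2` is a unit of `𝓞 F`.  The homomorphism `u ↦ u^2` from `ker α` to `(𝓞 F)ˣ / torsion` is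
injective modulo torsion, so `finrank (ker α) ≤ rank F = card (InfinitePlace F) - 1 ≤
finrank ℚ F - 1 ≤ n / 2 - 1` (the map `InfinitePlace.mk` from embeddings is onto and the number of
embeddings is the degree).  So `n - 2 ≤ n / 2 - 1`, `n ≤ 2`: contradiction.
(Alternatively avoid quotients by torsion: work with linearly independent families.)
-/

namespace Pool.Agent.Work.MP_77d073_nt

open NumberField NumberField.Units Module Filter Topology

/-- A real unit with `‖σ u‖ = ‖τ u‖` has its square in the locus of `σ = τ`. -/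
theorem sq_locus {K : Type*} [Field K] [NumberField K]
    (hreal : ∀ σ : K →+* ℂ, ComplexEmbedding.conjugate σ = σ) {σ τ : K →+* ℂ} (x : K)
    (h : ‖σ x‖ = ‖τ x‖) : σ (x ^ 2) = τ (x ^ 2) := by
  have key : ∀ φ : K →+* ℂ, φ (x ^ 2) = ((‖φ x‖ ^ 2 : ℝ) : ℂ) := by
    intro φ
    have h1 : (starRingEnd ℂ) (φ x) = φ x := by
      have := RingHom.congr_fun (hreal φ) x
      simpa [ComplexEmbedding.conjugate_coe_eq] using this
    rw [map_pow, ← Complex.normSq_eq_norm_sq, Complex.normSq_eq_conj_mul_self, h1, sq]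
  rw [key σ, key τ, h]

theorem unit_locus {K : Type*} [Field K] [NumberField K] (F : Subfield K) (u : (𝓞 K)ˣ)
    (hu : ((u : K)) ∈ F) :
    ∃ v : (𝓞 F)ˣ, Units.map (algebraMap (𝓞 F) (𝓞 K)).toMonoidHom v = u := by
  have hu' : ((u⁻¹ : (𝓞 K)ˣ) : K) ∈ F := by
    have : ((u⁻¹ : (𝓞 K)ˣ) : K) = (u : K)⁻¹ := by
      apply eq_inv_of_mul_eq_one_left
      have h1 : ((u⁻¹ * u : (𝓞 K)ˣ) : K) = 1 := by simp
      simpa using h1
    rw [this]
    exact F.inv_mem hu
  have hi : ∀ w : (𝓞 K)ˣ, ∀ hw : (w : K) ∈ F, IsIntegral ℤ (⟨(w : K), hw⟩ : F) := by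
    intro w hw
    have h1 : IsIntegral ℤ ((algebraMap F K) ⟨(w : K), hw⟩) := RingOfIntegers.isIntegral_coe (w : 𝓞 K)
    exact (isIntegral_algebraMap_iff (algebraMap F K).injective).mp h1
  let a : 𝓞 F := ⟨⟨(u : K), hu⟩, hi u hu⟩
  let b : 𝓞 F := ⟨⟨((u⁻¹ : (𝓞 K)ˣ) : K), hu'⟩, hi _ hu'⟩
  have hab : a * b = 1 := by
    apply RingOfIntegers.ext
    apply Subtype.ext
    change (u : K) * ((u⁻¹ : (𝓞 K)ˣ) : K) = 1
    have h1 : ((u * u⁻¹ : (𝓞 K)ˣ) : K) = 1 := by simp
    simpa using h1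
  refine ⟨⟨a, b, hab, by rw [mul_comm]; exact hab⟩, ?_⟩
  apply Units.ext
  apply RingOfIntegers.ext
  rfl

theorem dense_ratio {K : Type*} [Field K] [NumberField K]
    (hreal : ∀ σ : K →+* ℂ, ComplexEmbedding.conjugate σ = σ) (hK : 3 ≤ finrank ℚ K)
    {σ τ : K →+* ℂ} (hστ : σ ≠ τ) :
    Dense (Set.range fun u : (𝓞 K)ˣ => Real.log ‖σ (u : K)‖ - Real.log ‖τ (u : K)‖) := by
  classical
  -- the homomorphism
  have hne : ∀ (φ : K →+* ℂ) (u : (𝓞 K)ˣ), ‖φ (u : K)‖ ≠ 0 := by
    intro φ u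
    rw [norm_ne_zero_iff]
    intro h
    rw [map_eq_zero] at h
    exact coe_ne_zero u h
  let α : Additive (𝓞 K)ˣ →+ ℝ :=
    { toFun := fun u => Real.log ‖σ ((Additive.toMul u : (𝓞 K)ˣ) : K)‖ -
        Real.log ‖τ ((Additive.toMul u : (𝓞 K)ˣ) : K)‖
      map_zero' := by simp
      map_add' := by
        intro x y
        simp only [toMul_add, coe_mul, map_mul, norm_mul]
        rw [Real.log_mul (hne σ _) (hne σ _), Real.log_mul (hne τ _) (hne τ _)]
        ring }
  have hα : ∀ u : (𝓞 K)ˣ, α (Additive.ofMul u) = Real.log ‖σ (u : K)‖ - Real.log ‖τ (u : K)‖ :=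
    fun u => rfl
  have hrange : (Set.range fun u : (𝓞 K)ˣ => Real.log ‖σ (u : K)‖ - Real.log ‖τ (u : K)‖) =
      (α.range : Set ℝ) := by
    ext x
    constructor
    · rintro ⟨u, rfl⟩
      exact ⟨Additive.ofMul u, hα u⟩
    · rintro ⟨u, rfl⟩
      exact ⟨Additive.toMul u, rfl⟩
  rw [hrange]
  rcases α.range.dense_or_cyclic with h | ⟨g, hg⟩
  · exact h
  exfalso
  -- ranks
  have hTR : IsTotallyReal K := by
    refine ⟨fun w => ?_⟩
    rw [InfinitePlace.isReal_iff, ComplexEmbedding.isReal_iff]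
    exact hreal _
  have hrankK : rank K = finrank ℚ K - 1 := by
    rw [rank, hTR.finrank, InfinitePlace.card_eq_nrRealPlaces_add_nrComplexPlaces,
      nrComplexPlaces_eq_zero_iff.mpr hTR, add_zero]
  let A : Additive (𝓞 K)ˣ →ₗ[ℤ] ℝ := α.toIntLinearMap
  have hker : finrank ℤ (LinearMap.range A) + finrank ℤ (LinearMap.ker A) = rank K := by
    rw [← A.quotKerEquivRange.finrank_eq, Submodule.finrank_quotient_add_finrank]
    exact finrank_eq K
  have hrg : finrank ℤ (LinearMap.range A) ≤ 1 := by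
    have h1 : LinearMap.range A = Submodule.span ℤ {g} := by
      ext x
      rw [LinearMap.mem_range, Submodule.mem_span_singleton]
      have h2 : x ∈ α.range ↔ x ∈ AddSubgroup.closure {g} := by rw [hg]
      rw [AddMonoidHom.mem_range, AddSubgroup.mem_closure_singleton] at h2
      exact h2
    rw [h1]
    simpa using finrank_span_le_card (R := ℤ) ({g} : Set ℝ)
  -- the subfield
  set F : Subfield K := σ.eqLocusField τ with hF
  have hd : 1 < finrank F K := finrank_locus hστ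
  have hmul : finrank ℚ F * finrank F K = finrank ℚ K := finrank_mul_finrank ℚ F K
  have hTF : IsTotallyReal F := IsTotallyReal.of_algebra F K
  have hrankF : rank F = finrank ℚ F - 1 := by
    rw [rank, hTF.finrank, InfinitePlace.card_eq_nrRealPlaces_add_nrComplexPlaces,
      nrComplexPlaces_eq_zero_iff.mpr hTF, add_zero]
  let B : Additive (𝓞 F)ˣ →ₗ[ℤ] Additive (𝓞 K)ˣ :=
    (MonoidHom.toAdditive (Units.map (algebraMap (𝓞 F) (𝓞 K)).toMonoidHom)).toIntLinearMap
  have hB : finrank ℤ (LinearMap.range B) ≤ rank F := by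
    rw [← finrank_eq F]
    exact LinearMap.finrank_range_le B
  have hC : ∀ u : LinearMap.ker A, (2 : ℤ) • (u : Additive (𝓞 K)ˣ) ∈ LinearMap.range B := by
    rintro ⟨u, hu⟩
    have h1 : Real.log ‖σ ((Additive.toMul u : (𝓞 K)ˣ) : K)‖ -
        Real.log ‖τ ((Additive.toMul u : (𝓞 K)ˣ) : K)‖ = 0 := hu
    have h2 : ‖σ ((Additive.toMul u : (𝓞 K)ˣ) : K)‖ = ‖τ ((Additive.toMul u : (𝓞 K)ˣ) : K)‖ := by
      apply Real.log_injOn_pos
      · exact lt_of_le_of_ne (norm_nonneg _) (hne σ _).symm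
      · exact lt_of_le_of_ne (norm_nonneg _) (hne τ _).symm
      · linarith
    have h3 := sq_locus hreal _ h2
    obtain ⟨v, hv⟩ := unit_locus F ((Additive.toMul u) ^ 2) (by
      have : ((((Additive.toMul u) ^ 2 : (𝓞 K)ˣ)) : K) = ((Additive.toMul u : (𝓞 K)ˣ) : K) ^ 2 := by
        simp
      rw [this]
      exact h3)
    refine ⟨Additive.ofMul v, ?_⟩
    change Additive.ofMul (Units.map (algebraMap (𝓞 F) (𝓞 K)).toMonoidHom v) = _
    rw [hv]
    rfl
  let C : LinearMap.ker A →ₗ[ℤ] LinearMap.range B :=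
    LinearMap.codRestrict (LinearMap.range B)
      ((2 : ℤ) • (LinearMap.ker A).subtype) hC
  have hCker : finrank ℤ (LinearMap.ker C) = 0 := by
    rw [Module.finrank_eq_zero_iff_isTorsion]
    rintro ⟨u, hu⟩
    refine ⟨⟨2, by simp⟩, ?_⟩
    have h1 : (2 : ℤ) • (u : Additive (𝓞 K)ˣ) = 0 := congrArg Subtype.val hu
    apply Subtype.ext
    apply Subtype.ext
    exact h1
  have hle : finrank ℤ (LinearMap.ker A) ≤ finrank ℤ (LinearMap.range B) := by
    have h1 : finrank ℤ (LinearMap.range C) + finrank ℤ (LinearMap.ker C) =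
        finrank ℤ (LinearMap.ker A) := by
      rw [← C.quotKerEquivRange.finrank_eq, Submodule.finrank_quotient_add_finrank]
    have h2 : finrank ℤ (LinearMap.range C) ≤ finrank ℤ (LinearMap.range B) :=
      Submodule.finrank_le _
    omega
  have hFpos : 0 < finrank ℚ F := finrank_pos
  have h5 : finrank ℚ F * 2 ≤ finrank ℚ K := by
    rw [← hmul]
    exact Nat.mul_le_mul_left _ hd
  omega

end Pool.Agent.Work.MP_77d073_nt
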