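import Mathlib
import Pool.Agent.Work.MP_77d073_nt.Wall.Den
import Pool.Agent.Work.MP_77d073_nt.Orbit

set_option autoImplicit false

/-!
ACT (M).  If the forms of `L` are eigenforms of one integer matrix then there are unimodular
integer matrices with positive eigenvalues `μ` on the forms and `μ i / μ k` close to any `ρ > 0`.

PROOF.  `irr_of_eigen` (Orbit.lean) gives the irreducibility of the characteristic polynomial of
`A` over `ℚ`; `field_of_matrix` (Field.lean) gives `K`, the basis `b` and `θ` with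
`∑ j, A j k b j = θ b k` and `K = ℚ[θ]`.  `coef_mul` and `hlam` give
`(σ θ - lam a) * coef b L a σ = 0` for all `a, σ` (`coef` is linear in the form).  The form `L a`
is not zero, so (`coef_sum`, or `coef_li`) some `coef b L a σ ≠ 0`; then `σ θ = lam a`, which
determines `σ =: s a` (`embedding_ext`).  `s` is injective since `lam` is, hence bijective
(`Fintype.card (K →+* ℂ) = n`).  `s a` is real: its conjugate has the same value `lam a` at `θ`.
So `hreal` holds and `coef b L a σ = 0` for `σ ≠ s a`.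
Let `D` be the common denominator as in `final_matrix` (Final.lean, `exists_den_family`), let `m > 0`
be the order of the finite group `(𝓞 K ⧸ span {D})ˣ`, so `u ^ m ≡ 1 mod D` for EVERY unit `u`
(compare `exists_pow_congr`).  `dense_ratio` gives a unit `u` such that
`log ‖s i u‖ - log ‖s k u‖` is as close as we want to `log ρ / (2 m)`; then `v = u ^ (2 m)` has
`s a v > 0` for all `a` (even power of a real number), `s i v / s k v` within `ε` of `ρ`
(continuity of `exp`), and `∏ a, s a v = norm v = 1` (the norm of `u` is `± 1`).  As in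
`final_matrix`, multiplication by `v` has an integer matrix `M` in the basis `b`, `M.det = norm v = 1`
and `∑ j, L a j * M j k = (s a v).re * L a k`.
-/

namespace Pool.Agent.Work.MP_77d073_nt

open NumberField NumberField.Units Module Filter Topology

theorem exists_pow_congr_all (K : Type*) [Field K] [NumberField K] {D : ℕ} (hD : 0 < D) :
    ∃ m : ℕ, 0 < m ∧ ∀ u : (𝓞 K)ˣ, ∃ a : 𝓞 K, ((u : K)) ^ m = 1 + (D : K) * (a : K) := by
  set I : Ideal (𝓞 K) := Ideal.span {(D : 𝓞 K)} with hI
  have hI0 : I ≠ ⊥ := by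
    rw [hI, Ne, Ideal.span_singleton_eq_bot]
    exact_mod_cast hD.ne'
  have : Finite (𝓞 K ⧸ I) := Ideal.finiteQuotientOfFreeOfNeBot I hI0
  refine ⟨Nat.card (𝓞 K ⧸ I)ˣ, Nat.card_pos, ?_⟩
  intro u
  have hpow := pow_card_eq_one' (x := Units.map (Ideal.Quotient.mk I).toMonoidHom u)
  have h1 : Ideal.Quotient.mk I ((u : 𝓞 K) ^ (Nat.card (𝓞 K ⧸ I)ˣ)) = 1 := by
    have h0 := congrArg Units.val hpow
    rw [Units.val_pow_eq_pow_val, Units.val_one] at h0
    rw [map_pow]
    exact h0
  rw [← map_one (Ideal.Quotient.mk I), Ideal.Quotient.eq, hI, Ideal.mem_span_singleton] at h1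
  obtain ⟨a, ha⟩ := h1
  refine ⟨a, ?_⟩
  have h2 : (u : 𝓞 K) ^ (Nat.card (𝓞 K ⧸ I)ˣ) = 1 + (D : 𝓞 K) * a := by rw [← ha]; ring
  have h3 := congrArg (algebraMap (𝓞 K) K) h2
  simpa using h3

section act

variable {K : Type*} [Field K] [NumberField K] {n : ℕ}

theorem norm_prod (v : K) : ((Algebra.norm ℚ v : ℚ) : ℂ) = ∏ σ : K →+* ℂ, σ v := by
  have h3 := Algebra.norm_eq_prod_embeddings ℚ ℂ v
  rw [eq_ratCast] at h3
  rw [h3]
  exact (Fintype.prod_equiv (RingHom.equivRatAlgHom K ℂ) (fun f => f v)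
      (fun φ => φ v) fun φ => by simp [RingHom.equivRatAlgHom_apply]).symm

/-- The matrix of a number `v ≡ 1 (mod D)` of norm one. -/
theorem matrix_of_congr (b : Basis (Fin n) ℚ K) (L : Fin n → Fin n → ℝ)
    (s : Fin n → (K →+* ℂ))
    (hsreal : ∀ i, ComplexEmbedding.conjugate (s i) = s i)
    (hs : ∀ i σ, σ ≠ s i → coef b L i σ = 0) {D : ℕ}
    (hDz : ∀ a : 𝓞 K, ∀ p : Fin n × Fin n, ∃ z : ℤ,
      (D : ℚ) * ((b.coord p.1 : K →ₗ[ℚ] ℚ) ∘ₗ (LinearMap.mulRight ℚ (b p.2))) (a : K) = z)
    {v : K} {a : 𝓞 K} (ha : v = 1 + (D : K) * (a : K)) (hnorm : Algebra.norm ℚ v = 1) :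
    ∃ A : Matrix (Fin n) (Fin n) ℤ, A.det = 1 ∧
      ∀ i k, ∑ j, L i j * (A j k : ℝ) = ((s i) v).re * L i k := by
  classical
  choose z hz using hDz a
  set A : Matrix (Fin n) (Fin n) ℤ := fun j k => (if j = k then 1 else 0) + z (j, k) with hA
  have hAv : ∀ j k, (A j k : ℚ) = b.repr (v * b k) j := by
    intro j k
    rw [ha, add_mul, one_mul, map_add, Finsupp.add_apply]
    have h1 := hz (j, k)
    simp only [LinearMap.comp_apply, LinearMap.mulRight_apply, Basis.coord_apply] at h1
    have h2 : (D : K) * (a : K) * b k = (D : ℚ) • ((a : K) * b k) := by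
      rw [Rat.smul_def, mul_assoc]; simp
    rw [h2, map_smul, Finsupp.smul_apply, smul_eq_mul, h1, b.repr_self, Finsupp.single_apply]
    simp only [hA]
    push_cast
    by_cases hjk : j = k
    · simp [hjk]
    · simp [hjk, Ne.symm hjk]
  have hAmap : A.map (Int.castRingHom ℚ) = Algebra.leftMulMatrix b v := by
    ext j k
    rw [Algebra.leftMulMatrix_eq_repr_mul, ← hAv]
    simp
  have hdet : A.det = 1 := by
    have h1 : ((A.det : ℤ) : ℚ) = Algebra.norm ℚ v := by
      rw [Algebra.norm_eq_matrix_det b v, ← hAmap]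
      exact RingHom.map_det (Int.castRingHom ℚ) A
    rw [hnorm] at h1
    exact_mod_cast h1
  refine ⟨A, hdet, ?_⟩
  intro i
  have him : ((s i) v).im = 0 := by
    rw [← Complex.conj_eq_iff_im, ← ComplexEmbedding.conjugate_coe_eq, hsreal]
  have hre : (((s i) v).re : ℂ) = (s i) v := by
    apply Complex.ext <;> simp [him]
  have hsingle : ∀ ξ : K, ∑ j, (L i j : ℂ) * ((b.repr ξ j : ℚ) : ℂ) = coef b L i (s i) * (s i) ξ := by
    intro ξ
    rw [← coef_sum, Finset.sum_eq_single (s i)]
    · intro σ _ hσ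
      rw [hs i σ hσ, zero_mul]
    · simp
  intro k
  have h1 := hsingle (v * b k)
  have h2 := hsingle (b k)
  have h3 : ∑ j, (L i j : ℂ) * ((b.repr (b k) j : ℚ) : ℂ) = L i k := by
    rw [Finset.sum_eq_single k]
    · simp
    · intro j _ hj
      rw [b.repr_self, Finsupp.single_apply, if_neg (Ne.symm hj)]
      simp
    · simp
  rw [map_mul (s i), mul_left_comm, ← h2, h3, ← hre] at h1
  have h4 : ((∑ j, L i j * (A j k : ℝ) : ℝ) : ℂ) = ((((s i) v).re * L i k : ℝ) : ℂ) := by
    rw [Complex.ofReal_mul, ← h1]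
    push_cast
    refine Finset.sum_congr rfl fun j _ => ?_
    rw [← hAv]
    push_cast
    rfl
  exact_mod_cast h4

end act

theorem auto_ratio {n : ℕ} (hn : 3 ≤ n) {L : Fin n → Fin n → ℝ} (hL : (Matrix.of L).det ≠ 0)
    (hne : ∀ p : Fin n → ℤ, p ≠ 0 → ∀ i, ∑ j, L i j * (p j : ℝ) ≠ 0)
    {A : Matrix (Fin n) (Fin n) ℤ} {lam : Fin n → ℝ} (hlam : Function.Injective lam)
    (hA : ∀ a b, ∑ j, L a j * (A j b : ℝ) = lam a * L a b) {i k : Fin n} (hik : i ≠ k)
    {ρ ε : ℝ} (hρ : 0 < ρ) (hε : 0 < ε) :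
    ∃ (M : Matrix (Fin n) (Fin n) ℤ) (μ : Fin n → ℝ), Uni M ∧ (∀ a, 0 < μ a) ∧ ∏ a, μ a = 1 ∧
      (∀ a b, ∑ j, L a j * (M j b : ℝ) = μ a * L a b) ∧ |μ i / μ k - ρ| < ε := by
  classical
  set B : Matrix (Fin n) (Fin n) ℚ := A.map (Int.cast : ℤ → ℚ) with hB
  have hBA : ∀ a c, ∑ j, L a j * (B j c : ℝ) = lam a * L a c := by
    intro a c
    rw [← hA a c]
    refine Finset.sum_congr rfl fun j _ => ?_
    simp [hB]
  have hirr : Irreducible B.charpoly := irr_of_eigen hL (by omega) hne hlam hBA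
  obtain ⟨K, _, _, b, θ, hb, hgen⟩ := field_of_matrix B hirr
  have hlin : LinearIndependent ℝ L := by
    have := Matrix.linearIndependent_rows_of_isUnit
      ((Matrix.isUnit_iff_isUnit_det (Matrix.of L)).mpr (isUnit_iff_ne_zero.mpr hL))
    exact this
  have hcoef : ∀ a σ, (σ θ - lam a) * coef b L a σ = 0 := by
    intro a σ
    have h1 := coef_mul hb L a σ
    have h2 : coef b (fun i k => ∑ j, L i j * (B j k : ℝ)) a σ = (lam a : ℂ) * coef b L a σ := by
      unfold coef
      rw [Finset.mul_sum]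
      refine Finset.sum_congr rfl fun j _ => ?_
      beta_reduce
      rw [hBA]
      push_cast
      ring
    rw [h2] at h1
    rw [sub_mul, ← h1, sub_self]
  have hex : ∀ a, ∃ σ : K →+* ℂ, coef b L a σ ≠ 0 := by
    intro a
    have h1 := (coef_li b hlin).ne_zero a
    exact Function.ne_iff.mp h1
  choose s hs0 using hex
  have hsθ : ∀ a, s a θ = lam a := by
    intro a
    rcases mul_eq_zero.mp (hcoef a (s a)) with h | h
    · exact sub_eq_zero.mp h
    · exact absurd h (hs0 a)
  have hs : ∀ a σ, σ ≠ s a → coef b L a σ = 0 := by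
    intro a σ hσ
    rcases mul_eq_zero.mp (hcoef a σ) with h | h
    · exact absurd (embedding_ext hgen ((sub_eq_zero.mp h).trans (hsθ a).symm)) hσ
    · exact h
  have hsinj : Function.Injective s := by
    intro a c hac
    apply hlam
    have h1 := hsθ a
    rw [hac, hsθ c] at h1
    exact_mod_cast h1.symm
  have hfin : finrank ℚ K = n := by rw [Module.finrank_eq_card_basis b, Fintype.card_fin]
  have hcard : Fintype.card (K →+* ℂ) = n := by
    rw [NumberField.Embeddings.card, hfin]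
  have hbij : Function.Bijective s := by
    rw [Fintype.bijective_iff_injective_and_card]
    exact ⟨hsinj, by rw [hcard, Fintype.card_fin]⟩
  have hsreal : ∀ a, ComplexEmbedding.conjugate (s a) = s a := by
    intro a
    apply embedding_ext hgen
    rw [ComplexEmbedding.conjugate_coe_eq, hsθ, Complex.conj_ofReal]
  have hreal : ∀ σ : K →+* ℂ, ComplexEmbedding.conjugate σ = σ := by
    intro σ
    obtain ⟨a, rfl⟩ := hbij.2 σ
    exact hsreal a
  obtain ⟨D, hD, hDz⟩ := exists_den_family (fun p : Fin n × Fin n =>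
    ((b.coord p.1 : K →ₗ[ℚ] ℚ) ∘ₗ (LinearMap.mulRight ℚ (b p.2))))
  obtain ⟨m, hm, hmu⟩ := exists_pow_congr_all K hD
  -- the unit
  have hexp : ContinuousAt Real.exp (Real.log ρ) := Real.continuous_exp.continuousAt
  rw [Metric.continuousAt_iff] at hexp
  obtain ⟨δ, hδ, hδε⟩ := hexp ε hε
  have hmR : (0 : ℝ) < 2 * m := by
    have : (0 : ℝ) < m := by exact_mod_cast hm
    linarith
  obtain ⟨y, ⟨u, rfl⟩, hy⟩ := (dense_ratio hreal (by rw [hfin]; exact hn)
    (hsinj.ne hik)).exists_dist_lt (Real.log ρ / (2 * m)) (div_pos hδ hmR)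
  -- the real conjugates
  have hr : ∀ a, ((((s a) (u : K)).re : ℝ) : ℂ) = (s a) (u : K) := by
    intro a
    have him : ((s a) (u : K)).im = 0 := by
      rw [← Complex.conj_eq_iff_im, ← ComplexEmbedding.conjugate_coe_eq, hsreal]
    apply Complex.ext <;> simp [him]
  set r : Fin n → ℝ := fun a => ((s a) (u : K)).re with hrdef
  have hr0 : ∀ a, r a ≠ 0 := by
    intro a h
    have h1 := hr a
    change ((r a : ℝ) : ℂ) = _ at h1
    rw [h, Complex.ofReal_zero] at h1
    exact coe_ne_zero u ((map_eq_zero (s a)).mp h1.symm)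
  have hnormr : ∀ a, ‖(s a) (u : K)‖ = |r a| := by
    intro a
    rw [← hr a, Complex.norm_real, Real.norm_eq_abs]
  set v : K := (u : K) ^ (2 * m) with hv
  have hsv : ∀ a, ((s a) v).re = r a ^ (2 * m) := by
    intro a
    rw [hv, map_pow, ← hr a, ← Complex.ofReal_pow, Complex.ofReal_re]
  have hnorm : Algebra.norm ℚ v = 1 := by
    have h1 := NumberField.Units.norm K u
    rw [hv, map_pow, pow_mul]
    have h2 : (Algebra.norm ℚ (u : K)) ^ 2 = 1 := by
      rw [← sq_abs, h1, one_pow]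
    rw [h2, one_pow]
  obtain ⟨a, ha⟩ := hmu (u ^ 2)
  have ha' : v = 1 + (D : K) * (a : K) := by
    rw [← ha, hv, pow_mul]
    simp
  obtain ⟨M, hMdet, hM⟩ := matrix_of_congr b L s hsreal hs hDz ha' hnorm
  refine ⟨M, fun a => ((s a) v).re, Or.inl hMdet, ?_, ?_, hM, ?_⟩
  · intro a
    beta_reduce
    rw [hsv, pow_mul]
    exact pow_pos (lt_of_le_of_ne (sq_nonneg _) (pow_ne_zero 2 (hr0 a)).symm) _
  · have h1 := norm_prod v
    rw [hnorm] at h1
    have h2 : ∏ σ : K →+* ℂ, σ v = ∏ a, (s a) v :=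
      (Function.Bijective.prod_comp hbij (fun σ => σ v)).symm
    have h3 : ∏ a, (s a) v = ((∏ a, ((s a) v).re : ℝ) : ℂ) := by
      rw [Complex.ofReal_prod]
      refine Finset.prod_congr rfl fun a _ => ?_
      rw [hsv, hv, map_pow, ← hr a]
      push_cast
      rfl
    rw [h2, h3] at h1
    have h4 : ((1 : ℝ) : ℂ) = ((∏ a, ((s a) v).re : ℝ) : ℂ) := by simpa using h1
    exact_mod_cast h4.symm
  · simp only
    rw [hsv, hsv]
    have h1 : r i ^ (2 * m) / r k ^ (2 * m) =
        Real.exp (2 * m * (Real.log |r i| - Real.log |r k|)) := by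
      rw [mul_sub, Real.exp_sub]
      have h2 : ∀ a, Real.exp (2 * m * Real.log |r a|) = r a ^ (2 * m) := by
        intro a
        have h3 : (2 * (m : ℝ)) * Real.log |r a| = Real.log (|r a| ^ (2 * m)) := by
          rw [Real.log_pow]; push_cast; ring
        rw [h3, Real.exp_log (pow_pos (abs_pos.mpr (hr0 a)) _)]
        rw [pow_mul, pow_mul, sq_abs]
      rw [h2, h2]
    rw [h1]
    simp only [hnormr] at hy
    rw [Real.dist_eq] at hy
    have h4 : dist (2 * m * (Real.log |r i| - Real.log |r k|)) (Real.log ρ) < δ := by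
      rw [Real.dist_eq]
      have h5 : 2 * m * (Real.log |r i| - Real.log |r k|) - Real.log ρ =
          -(2 * m * (Real.log ρ / (2 * m) - (Real.log |r i| - Real.log |r k|))) := by
        field_simp
        ring
      rw [h5, abs_neg, abs_mul, abs_of_pos hmR, mul_comm]
      rwa [lt_div_iff₀ hmR] at hy
    have h6 := hδε h4
    rw [Real.exp_log hρ, Real.dist_eq] at h6
    exact h6

end Pool.Agent.Work.MP_77d073_nt
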