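import Mathlib
import Pool.Agent.Work.MP_77d073_nt.Wall.Defs
import Pool.Agent.Work.MP_77d073_nt.Wall.Act

set_option autoImplicit false

/-!
NRM (M).  Norm forms: every multiple `t L` with `t i * t k > 0` is a wall limit of `L`, and `L` is
uniformly recurrent for the wall.

`scaled_mem`.  PROOF.  Let `ρ = t i / t k > 0` and `m` a third index.  For `j : ℕ` take
`M j, μ j` from `auto_ratio` with `ε = 1 / (j + 1)`; `q j := (μ j i / μ j k) / ρ → 1`.  Let `r j` be
`q j` at `i`, `1 / q j` at `m`, `1` elsewhere (`∏ r j = 1`, `q j > 0`), and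
`w j := t * (μ j)⁻¹ * r j`: `∏ w j = 1` and `w j i / w j k = ρ * (μ j k / μ j i) * q j = 1`.  So
`tr L (M j) (w j) ∈ worb i k L`, and it equals `fun a b => t a * r j a * L a b` (because
`∑ L a l (M j) l b = μ j a * L a b`), which tends to `tr L 1 t`.

`recurrent`.  PROOF.  Let `C = closure (worb i k L)`.  `L' ∈ C ⊆ closure (orb L) ⊆ orb L`
(`worb_sub_orb`, `hcl`), so `L' = tr L N t` with `N` unimodular and `∏ t = 1`; `N'` the inverse
(`Uni.inv`).  Then `tr L 1 t = tr L' N' 1 ∈ C` (`worb_WI`), and `worb i k L'` contains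
`worb i k (tr L 1 t)` (absorb `N`).  It is enough that `L ∈ closure (worb i k (tr L 1 t))`, and for
this it is enough (`worb_scale` with `t`) that `tr L 1 t⁻¹ ∈ C`.  If `t i * t k > 0` this is
`scaled_mem` for `t⁻¹`.  Otherwise `t i * t k < 0` (no `t a` is zero); `scaled_mem` for
`t⁻¹ * t⁻¹` gives `tr L 1 (t⁻¹ * t⁻¹) ∈ C`, `worb_scale` gives
`tr L 1 t⁻¹ = tr (tr L 1 (t⁻¹ * t⁻¹)) 1 t ∈ closure (worb i k (tr L 1 t)) ⊆ C` since
`tr L 1 t ∈ C` (`WI.worb_sub`).
-/

namespace Pool.Agent.Work.MP_77d073_nt.Root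

open Filter Topology Pool.Agent.Work.MP_77d073_nt

theorem scaled_mem {n : ℕ} (hn : 3 ≤ n) {L : Fin n → Fin n → ℝ} (hL : (Matrix.of L).det ≠ 0)
    (hne : ∀ p : Fin n → ℤ, p ≠ 0 → ∀ i, ∑ j, L i j * (p j : ℝ) ≠ 0)
    {A : Matrix (Fin n) (Fin n) ℤ} {lam : Fin n → ℝ} (hlam : Function.Injective lam)
    (hA : ∀ a b, ∑ j, L a j * (A j b : ℝ) = lam a * L a b) {i k : Fin n} (hik : i ≠ k)
    {t : Fin n → ℝ} (ht : ∏ a, t a = 1) (htik : 0 < t i * t k) :
    tr L 1 t ∈ closure (worb i k L) := by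
  classical
  obtain ⟨m, hmi, hmk⟩ : ∃ m : Fin n, m ≠ i ∧ m ≠ k := by
    by_contra hcon
    push Not at hcon
    have h1 : (Finset.univ : Finset (Fin n)) ⊆ {i, k} := by
      intro m _
      by_cases h : m = i
      · simp [h]
      · simp [hcon m h]
    have h2 := Finset.card_le_card h1
    rw [Finset.card_univ, Fintype.card_fin] at h2
    have h3 : ({i, k} : Finset (Fin n)).card ≤ 2 := Finset.card_le_two
    omega
  have hti : t i ≠ 0 := by
    intro h
    rw [h, zero_mul] at htik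
    exact lt_irrefl _ htik
  have htk : t k ≠ 0 := by
    intro h
    rw [h, mul_zero] at htik
    exact lt_irrefl _ htik
  have hρ : 0 < t i / t k := by
    have h1 : t i / t k = t i * t k / (t k * t k) := by
      field_simp
    rw [h1]
    exact div_pos htik (mul_self_pos.mpr htk)
  have hex : ∀ j : ℕ, ∃ (M : Matrix (Fin n) (Fin n) ℤ) (μ : Fin n → ℝ), Uni M ∧ (∀ a, 0 < μ a) ∧
      ∏ a, μ a = 1 ∧ (∀ a b, ∑ j, L a j * (M j b : ℝ) = μ a * L a b) ∧
      |μ i / μ k - t i / t k| < 1 / ((j : ℝ) + 1) := fun j =>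
    auto_ratio hn hL hne hlam hA hik hρ (by positivity)
  choose M μ hM hμ0 hμ1 hMμ hμlim using hex
  set q : ℕ → ℝ := fun j => (μ j i / μ j k) / (t i / t k) with hq
  have hqpos : ∀ j, 0 < q j := fun j => div_pos (div_pos (hμ0 j i) (hμ0 j k)) hρ
  have hqlim : Tendsto q atTop (𝓝 1) := by
    have h0 : Tendsto (fun j => μ j i / μ j k) atTop (𝓝 (t i / t k)) := by
      rw [tendsto_iff_norm_sub_tendsto_zero]
      exact squeeze_zero (fun j => norm_nonneg _) (fun j => (hμlim j).le)
        tendsto_one_div_add_atTop_nhds_zero_nat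
    have h1 := h0.div_const (t i / t k)
    rwa [div_self hρ.ne'] at h1
  set r : ℕ → Fin n → ℝ := fun j a => if a = i then q j else if a = m then (q j)⁻¹ else 1 with hr
  have hrprod : ∀ j, ∏ a, r j a = 1 := by
    intro j
    rw [Fintype.prod_eq_mul i m hmi.symm (fun x hx => by simp [hr, hx.1, hx.2])]
    simp only [hr, if_true]
    rw [if_neg hmi, mul_inv_cancel₀ (hqpos j).ne']
  have hrlim : ∀ a, Tendsto (fun j => r j a) atTop (𝓝 1) := by
    intro a
    by_cases h1 : a = i
    · have : (fun j => r j a) = q := by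
        funext j; simp [hr, h1]
      rw [this]; exact hqlim
    · by_cases h2 : a = m
      · have : (fun j => r j a) = fun j => (q j)⁻¹ := by
          funext j; simp [hr, h1, h2, hmi]
        rw [this]
        have h3 := hqlim.inv₀ one_ne_zero
        rwa [inv_one] at h3
      · have : (fun j => r j a) = fun _ => 1 := by
          funext j; simp [hr, h1, h2]
        rw [this]; exact tendsto_const_nhds
  set w : ℕ → Fin n → ℝ := fun j a => t a * (μ j a)⁻¹ * r j a with hw
  have hwprod : ∀ j, ∏ a, w j a = 1 := by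
    intro j
    simp only [hw]
    rw [Finset.prod_mul_distrib, Finset.prod_mul_distrib, Finset.prod_inv_distrib, ht, hμ1 j,
      hrprod j]
    simp
  have hwik : ∀ j, w j i = w j k := by
    intro j
    have h1 : r j i = q j := by simp [hr]
    have h2 : r j k = 1 := by simp [hr, hik.symm, hmk.symm]
    simp only [hw, h1, h2, hq]
    have h3 := (hμ0 j i).ne'
    have h4 := (hμ0 j k).ne'
    field_simp
  have htr : ∀ j, tr L (M j) (w j) = fun a b => t a * r j a * L a b := by
    intro j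
    funext a b
    unfold tr
    rw [hMμ j a b]
    simp only [hw]
    have h3 := (hμ0 j a).ne'
    field_simp
  have hlim : Tendsto (fun j => tr L (M j) (w j)) atTop (𝓝 (tr L 1 t)) := by
    rw [tendsto_pi_nhds]
    intro a
    rw [tendsto_pi_nhds]
    intro b
    have h1 : (fun j => tr L (M j) (w j) a b) = fun j => t a * r j a * L a b := by
      funext j; rw [htr j]
    rw [h1]
    have h2 : tr L 1 t a b = t a * 1 * L a b := by
      unfold tr
      simp [Matrix.one_apply]
    rw [h2]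
    exact ((hrlim a).const_mul (t a)).mul_const (L a b)
  exact mem_closure_of_tendsto hlim
    (Eventually.of_forall fun j => ⟨M j, w j, hM j, hwprod j, hwik j, rfl⟩)

theorem recurrent {n : ℕ} (hn : 3 ≤ n) {L : Fin n → Fin n → ℝ} (hL : (Matrix.of L).det ≠ 0)
    (hne : ∀ p : Fin n → ℤ, p ≠ 0 → ∀ i, ∑ j, L i j * (p j : ℝ) ≠ 0)
    {A : Matrix (Fin n) (Fin n) ℤ} {lam : Fin n → ℝ} (hlam : Function.Injective lam)
    (hA : ∀ a b, ∑ j, L a j * (A j b : ℝ) = lam a * L a b) {i k : Fin n} (hik : i ≠ k)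
    (hcl : closure (orb L) ⊆ orb L) {L' : Fin n → Fin n → ℝ}
    (hL' : L' ∈ closure (worb i k L)) : L ∈ closure (worb i k L') := by
  obtain ⟨N, t, hN, ht, rfl⟩ := hcl (closure_mono (worb_sub_orb i k L) hL')
  obtain ⟨N', hN', hNN', -⟩ := hN.inv
  have ht0 : ∀ a, t a ≠ 0 := by
    intro a h
    have : ∏ a, t a = 0 := Finset.prod_eq_zero (Finset.mem_univ a) h
    rw [this] at ht
    exact zero_ne_one ht
  have hC : tr L 1 t ∈ closure (worb i k L) := by
    have h1 := (worb_WI i k L).inv _ hL' N' 1 hN' (by simp) rfl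
    rw [tr_tr, hNN', one_mul] at h1
    exact h1
  have hsub : closure (worb i k (tr L 1 t)) ⊆ closure (worb i k (tr L N t)) := by
    apply closure_mono
    rintro X ⟨M, s, hM, hs, hsik, rfl⟩
    refine ⟨N' * M, s, hN'.mul hM, hs, hsik, ?_⟩
    rw [tr_tr, tr_tr, ← mul_assoc, hNN', one_mul]
  apply hsub
  have htinv : ∏ a, t⁻¹ a = 1 := by
    simp only [Pi.inv_apply]
    rw [Finset.prod_inv_distrib, ht, inv_one]
  have hmain : tr L 1 t⁻¹ ∈ closure (worb i k L) := by
    by_cases hpos : 0 < t i * t k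
    · refine scaled_mem hn hL hne hlam hA hik htinv ?_
      simp only [Pi.inv_apply]
      rw [← mul_inv]
      exact inv_pos.mpr hpos
    · have h2 : tr L 1 (t⁻¹ * t⁻¹) ∈ closure (worb i k L) := by
        refine scaled_mem hn hL hne hlam hA hik ?_ ?_
        · simp only [Pi.mul_apply]
          rw [Finset.prod_mul_distrib, htinv, one_mul]
        · have h3 : (t⁻¹ * t⁻¹) i * (t⁻¹ * t⁻¹) k = ((t i)⁻¹ * (t k)⁻¹) * ((t i)⁻¹ * (t k)⁻¹) := by
            simp only [Pi.mul_apply, Pi.inv_apply]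
            ring
          rw [h3]
          exact mul_self_pos.mpr (mul_ne_zero (inv_ne_zero (ht0 i)) (inv_ne_zero (ht0 k)))
      have h4 := worb_scale (t := t) h2
      rw [tr_tr, mul_one] at h4
      have h5 : t * (t⁻¹ * t⁻¹) = t⁻¹ := by
        funext a
        simp only [Pi.mul_apply, Pi.inv_apply]
        rw [← mul_assoc, mul_inv_cancel₀ (ht0 a), one_mul]
      rw [h5] at h4
      exact (worb_WI i k L).worb_sub hC h4
  have h6 := worb_scale (t := t) hmain
  rw [tr_tr, mul_one] at h6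
  have h7 : t * t⁻¹ = 1 := by
    funext a
    simp only [Pi.mul_apply, Pi.inv_apply, Pi.one_apply]
    exact mul_inv_cancel₀ (ht0 a)
  rw [h7, tr_one] at h6
  exact h6

end Pool.Agent.Work.MP_77d073_nt.Root
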