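import Mathlib
import Pool.Agent.Work.MP_77d073_nt.RootIso

set_option autoImplicit false

/-!
KEEP (S-M).  A blow-up which erases the entries with row in `E` and column outside `E`.

PROOF.  Let `w k a = 1 / (k + 1)` for `a ∈ E` and `w k a = 1` for `a ∉ E`.  `iso_norm` (RootIso)
turns it into `t k` with `∏ t = 1` and the same ratios.  Apply `blow` (RootBlow) with the constant
sequence `Z k = z`, the constant matrices `G s` and these `t k`: the entry `(a, b)` of
`t k a / t k b * G s a b` is `G s a b` if `a ∈ E ↔ b ∈ E`, is `G s a b / (k + 1) → 0` if `a ∈ E`,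
`b ∉ E`, and is `(k + 1) * G s a b = 0` if `a ∉ E`, `b ∈ E` by hypothesis.  `n > 0` because
otherwise everything is trivial (`Fin 0`: then take `z` itself and `funext`), or use `n = 0` case
separately.
-/

namespace Pool.Agent.Work.MP_77d073_nt.Root

open Filter Topology Pool.Agent.Work.MP_77d073_nt

theorem keep {n : ℕ} {Y : Set (Fin n → Fin n → ℝ)} (hY : CI Y) {β : ℝ} (hbox : Red Y β)
    (E : Finset (Fin n)) {ι : Type} (G : ι → Matrix (Fin n) (Fin n) ℝ)
    (hG : ∀ s a b, a ∉ E → b ∈ E → G s a b = 0) {z : Fin n → Fin n → ℝ} (hz : z ∈ Y)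
    (hGz : ∀ s, ac (G s) z ∈ Y) :
    ∃ z' ∈ Y, ∀ s, ac (fun a b => if a ∈ E ∧ b ∉ E then 0 else G s a b) z' ∈ Y := by
  rcases Nat.eq_zero_or_pos n with hn | hn
  · subst hn
    refine ⟨z, hz, fun s => ?_⟩
    have h1 : ac (fun a b => if a ∈ E ∧ b ∉ E then 0 else G s a b) z = ac (G s) z := by
      funext a
      exact a.elim0
    rw [h1]
    exact hGz s
  · set w : ℕ → Fin n → ℝ := fun k a => if a ∈ E then 1 / ((k : ℝ) + 1) else 1 with hw
    have hk0 : ∀ k : ℕ, (0 : ℝ) < (k : ℝ) + 1 := fun k => by positivity
    have hwpos : ∀ k i, 0 < w k i := by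
      intro k i
      simp only [hw]
      have := hk0 k
      split_ifs <;> positivity
    choose t ht ht1 htr using fun k => iso_norm hn (w k) (hwpos k)
    refine blow hY hbox (fun _ => z) (fun _ => hz) (fun s _ => G s) (fun s _ => hGz s) t ht ht1
      (fun s a b => if a ∈ E ∧ b ∉ E then 0 else G s a b) ?_
    intro s a b
    simp_rw [htr]
    by_cases ha : a ∈ E
    · by_cases hb : b ∈ E
      · have h2 : ∀ k, w k a / w k b * G s a b = G s a b := by
          intro k
          have e : w k a = w k b := by simp only [hw, if_pos ha, if_pos hb]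
          rw [e, div_self (hwpos k b).ne', one_mul]
        simp_rw [h2]
        rw [if_neg (fun h => h.2 hb)]
        exact tendsto_const_nhds
      · have h2 : ∀ k, w k a / w k b * G s a b = 1 / ((k : ℝ) + 1) * G s a b := by
          intro k
          simp only [hw, if_pos ha, if_neg hb, div_one]
        simp_rw [h2]
        rw [if_pos ⟨ha, hb⟩]
        have h3 : Tendsto (fun k : ℕ => 1 / ((k : ℝ) + 1)) atTop (𝓝 0) :=
          tendsto_one_div_add_atTop_nhds_zero_nat
        have h4 := h3.mul_const (G s a b)
        rw [zero_mul] at h4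
        exact h4
    · rw [if_neg (fun h => ha h.1)]
      by_cases hb : b ∈ E
      · rw [hG s a b ha hb]
        simp only [mul_zero]
        exact tendsto_const_nhds
      · have h2 : ∀ k, w k a / w k b * G s a b = G s a b := by
          intro k
          have e : w k a = w k b := by simp only [hw, if_neg ha, if_neg hb]
          rw [e, div_self (hwpos k b).ne', one_mul]
        simp_rw [h2]
        exact tendsto_const_nhds

end Pool.Agent.Work.MP_77d073_nt.Root
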