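import Mathlib
import Pool.Agent.Work.MP_77d073_nt.Wall.Fam
import Pool.Agent.Work.MP_77d073_nt.Wall.Cop

set_option autoImplicit false

/-!
STEP (M, copy of an existing proof).  `step_block` (file RootStep.lean) for a family of
block-compatible matrices and for every block size coprime to `n`.

PROOF.  Copy the proof of `step_block`, replacing `recur_pair` by `recur_fam`, `exact_block` by
`exact_block_co` (its irreducibility input is `irr_block P hP hP'` whose coprimality hypothesis
`Nat.Coprime P.card Pᶜ.card` follows from `Nat.Coprime P.card n` and `P.card + Pᶜ.card = n`), and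
`u` by `g s`.  The final call of `blow` uses the index type `ι ⊕ ι` (or `Bool × ι`) with the
matrices `g s` and `g s * (1 + B)`; `huconj` and `huGlim` are needed for every `s`, with the same
proofs.
-/

namespace Pool.Agent.Work.MP_77d073_nt.Root

open Filter Topology Pool.Agent.Work.MP_77d073_nt

theorem step_fam {n : ℕ} (hn : 3 ≤ n) {L : Fin n → Fin n → ℝ} (hL : LinearIndependent ℝ L)
    {c : ℝ} (hc : 0 < c) (hlow : ∀ p : Fin n → ℤ, p ≠ 0 → c ≤ |∏ i, ∑ j, L i j * (p j : ℝ)|)
    (hnot : ¬ Cn L) (P : Finset (Fin n)) (hP : P.Nonempty) (hP' : Pᶜ.Nonempty)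
    (hco : Nat.Coprime P.card n) {ι : Type} (g : ι → Matrix (Fin n) (Fin n) ℝ)
    (hg : ∀ s a b, g s a b ≠ 0 → (a ∈ P ↔ b ∈ P))
    {x : Fin n → Fin n → ℝ} (hx : x ∈ closure (orb L)) (hgx : ∀ s, ac (g s) x ∈ closure (orb L)) :
    ∃ z ∈ closure (orb L), ∃ B : Matrix (Fin n) (Fin n) ℝ,
      (∀ a b, B a b ≠ 0 → a ∈ P ∧ b ∉ P) ∧ (∃ a b, B a b ≠ 0) ∧
      (∀ s, ac (g s) z ∈ closure (orb L)) ∧
      ∀ s, ac (g s * (1 + B)) z ∈ closure (orb L) := by
  classical
  have hn1 : 1 ≤ n := by omega
  have hLdet := (li_iff_det L).mp hL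
  have hD : 0 < |(Matrix.of L).det| := abs_pos.mpr hLdet
  have hG : Good c |(Matrix.of L).det| (closure (orb L)) :=
    ⟨fun L' hL' => orb_det hL', fun L' hL' => orb_lower hL' hlow⟩
  obtain ⟨β, hβ, hbox0⟩ := meets_box (n := n) hn1 hc hD
  have hbox : Red (closure (orb L)) β := hbox0 _ (orb_CI L) hG
  have hcc : Nat.Coprime P.card Pᶜ.card := by
    have h1 : P.card + Pᶜ.card = n := by
      rw [Finset.card_add_card_compl, Fintype.card_fin]
    have h5 : Nat.gcd P.card (P.card + Pᶜ.card) = 1 := by rw [h1]; exact hco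
    exact Nat.coprime_self_add_right.mp h5
  obtain ⟨ε₀, hε₀, hirr⟩ := irr_block P hP hP' hcc
  have hseq : ∀ N : ℕ, ∃ z ∈ closure (orb L), (∀ s, ac (g s) z ∈ closure (orb L)) ∧
      ∃ (G : Matrix (Fin n) (Fin n) ℝ),
      (∀ a b, |G a b - (1 : Matrix (Fin n) (Fin n) ℝ) a b| < 1 / ((N : ℝ) + 1)) ∧
      ac G z ∈ closure (orb L) ∧ (∀ s, ac (g s * G) z ∈ closure (orb L)) ∧ ∃ a ∈ P, ∃ b ∉ P, G a b ≠ 0 := by
    intro N
    have hε : 0 < min ε₀ (1 / ((N : ℝ) + 1)) := lt_min hε₀ (by positivity)
    obtain ⟨z, hz, huz, G, r, M, hG1, hr, hM, hGz, huGz, hrel⟩ :=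
      recur_fam (orb_CI L) hbox hD hG P g hg hx hgx hε 1
    refine ⟨z, hz, huz, G, fun a b => (hG1 a b).trans_le (min_le_right _ _), hGz, huGz, ?_⟩
    exact exact_block_co hn hL hc hlow hnot P hP hP' hco hz
      (hirr z (hG.ne hD hz) G r M (fun a b => (hG1 a b).trans_le (min_le_left _ _)) hr hM hrel)
      (fun i => (bt_pos P r i).ne') hrel
  choose z hz huz G hG1 hGz huGz hne using hseq
  have hblk : ∀ N, blk P (G N) ≠ 0 := by
    intro N h0
    obtain ⟨a, ha, b, hb, hab⟩ := hne N
    have := congrFun (congrFun h0 a) b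
    simp only [blk, Pi.zero_apply] at this
    rw [if_pos ⟨ha, hb⟩] at this
    exact hab this
  have hm0 : ∀ N, 0 < ‖blk P (G N)‖ := fun N => norm_pos_iff.mpr (hblk N)
  have hmlt : ∀ N, ‖blk P (G N)‖ ≤ 1 / ((N : ℝ) + 1) := by
    intro N
    have h0 : (0 : ℝ) ≤ 1 / ((N : ℝ) + 1) := by positivity
    rw [pi_norm_le_iff_of_nonneg h0]
    intro a
    rw [pi_norm_le_iff_of_nonneg h0]
    intro b
    simp only [blk]
    split_ifs with h
    · have hab : a ≠ b := by
        rintro rfl; exact h.2 h.1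
      have := hG1 N a b
      rw [Matrix.one_apply_ne hab, sub_zero] at this
      exact this.le
    · simpa using h0
  have hsphere : ∀ N, (‖blk P (G N)‖)⁻¹ • blk P (G N) ∈ Metric.sphere (0 : Fin n → Fin n → ℝ) 1 := by
    intro N
    rw [mem_sphere_zero_iff_norm, norm_smul, norm_inv, norm_norm, inv_mul_cancel₀ (hm0 N).ne']
  obtain ⟨B, hBs, φ, hφ, hBlim⟩ := (isCompact_sphere (0 : Fin n → Fin n → ℝ) 1).tendsto_subseq hsphere
  have hBab : ∀ a b, Tendsto (fun N => (‖blk P (G (φ N))‖)⁻¹ * blk P (G (φ N)) a b) atTop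
      (𝓝 (B a b)) := by
    intro a b
    exact (tendsto_pi_nhds.mp ((tendsto_pi_nhds.mp hBlim) a)) b
  have hBsupp : ∀ a b, ¬ (a ∈ P ∧ b ∉ P) → B a b = 0 := by
    intro a b hab
    have h1 := hBab a b
    have h2 : (fun N => (‖blk P (G (φ N))‖)⁻¹ * blk P (G (φ N)) a b) = fun _ => 0 := by
      funext N
      simp only [blk]
      rw [if_neg hab, mul_zero]
    rw [h2] at h1
    exact tendsto_nhds_unique h1 tendsto_const_nhds
  have hBne : ∃ a b, B a b ≠ 0 := by
    by_contra hcon
    push Not at hcon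
    have : B = 0 := by funext a b; exact hcon a b
    rw [this] at hBs
    simp at hBs
  -- the scaling
  set s : ℕ → ℝ := fun N => Real.log ((‖blk P (G (φ N))‖)⁻¹) / n with hs
  have hnR : (n : ℝ) ≠ 0 := by
    have : 0 < n := by omega
    exact_mod_cast this.ne'
  have hcardR : (P.card : ℝ) + (Pᶜ.card : ℝ) = n := by
    have : P.card + Pᶜ.card = n := by rw [Finset.card_add_card_compl, Fintype.card_fin]
    exact_mod_cast this
  have hbt_in : ∀ N a b, a ∈ P → b ∉ P → bt P (s N) a / bt P (s N) b = (‖blk P (G (φ N))‖)⁻¹ := by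
    intro N a b ha hb
    unfold bt
    rw [if_pos ha, if_neg hb, ← Real.exp_sub]
    have : (Pᶜ.card : ℝ) * s N - -((P.card : ℝ) * s N) = Real.log ((‖blk P (G (φ N))‖)⁻¹) := by
      rw [sub_neg_eq_add, ← add_mul, add_comm (Pᶜ.card : ℝ), hcardR, hs]
      field_simp
    rw [this, Real.exp_log (inv_pos.mpr (hm0 _))]
  have hbt_out : ∀ N a b, a ∉ P → b ∈ P → bt P (s N) a / bt P (s N) b = ‖blk P (G (φ N))‖ := by
    intro N a b ha hb
    have h1 := hbt_in N b a hb ha
    have h2 := (bt_pos P (s N) a).ne'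
    have h3 := (bt_pos P (s N) b).ne'
    rw [← inv_inv (‖blk P (G (φ N))‖), ← h1, inv_div]
  have hbt_same : ∀ N a b, (a ∈ P ↔ b ∈ P) → bt P (s N) a / bt P (s N) b = 1 := by
    intro N a b hab
    have : bt P (s N) a = bt P (s N) b := by
      unfold bt
      simp only [hab]
    rw [this, div_self (bt_pos P (s N) b).ne']
  have hGlim0 : ∀ a b, Tendsto (fun N => G (φ N) a b) atTop
      (𝓝 ((1 : Matrix (Fin n) (Fin n) ℝ) a b)) := by
    intro a b
    rw [tendsto_iff_norm_sub_tendsto_zero]
    have h3 : Tendsto (fun k : ℕ => 1 / ((k : ℝ) + 1)) atTop (𝓝 0) := by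
      apply Tendsto.div_atTop tendsto_const_nhds
      exact tendsto_atTop_add_const_right _ _ tendsto_natCast_atTop_atTop
    exact squeeze_zero (fun k => norm_nonneg _) (fun k => (hG1 (φ k) a b).le) (h3.comp hφ.tendsto_atTop)
  have hmlim : Tendsto (fun N => ‖blk P (G (φ N))‖) atTop (𝓝 0) := by
    have h3 : Tendsto (fun k : ℕ => 1 / ((k : ℝ) + 1)) atTop (𝓝 0) := by
      apply Tendsto.div_atTop tendsto_const_nhds
      exact tendsto_atTop_add_const_right _ _ tendsto_natCast_atTop_atTop
    exact squeeze_zero (fun k => norm_nonneg _) (fun k => hmlt (φ k)) (h3.comp hφ.tendsto_atTop)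
  have hGlim : ∀ a b, Tendsto (fun N => bt P (s N) a / bt P (s N) b * G (φ N) a b) atTop
      (𝓝 (((1 : Matrix (Fin n) (Fin n) ℝ) + Matrix.of B) a b)) := by
    intro a b
    rw [Matrix.add_apply, Matrix.of_apply]
    by_cases ha : a ∈ P
    · by_cases hb : b ∈ P
      · rw [hBsupp a b (by tauto), add_zero]
        simp_rw [hbt_same _ a b (by tauto), one_mul]
        exact hGlim0 a b
      · have hab : a ≠ b := by rintro rfl; exact hb ha
        rw [Matrix.one_apply_ne hab, zero_add]
        refine (hBab a b).congr fun N => ?_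
        rw [hbt_in N a b ha hb]
        simp only [blk]
        rw [if_pos ⟨ha, hb⟩]
    · by_cases hb : b ∈ P
      · have hab : a ≠ b := by rintro rfl; exact ha hb
        rw [Matrix.one_apply_ne hab, hBsupp a b (by tauto), zero_add]
        simp_rw [hbt_out _ a b ha hb]
        have := hmlim.mul (hGlim0 a b)
        rw [zero_mul] at this
        exact this
      · rw [hBsupp a b (by tauto), add_zero]
        simp_rw [hbt_same _ a b (by tauto), one_mul]
        exact hGlim0 a b
  have huconj : ∀ q N a b, bt P (s N) a / bt P (s N) b * g q a b = g q a b := by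
    intro q N a b
    by_cases h : g q a b = 0
    · rw [h, mul_zero]
    · rw [hbt_same N a b (hg q a b h), one_mul]
  have huGlim : ∀ q a b, Tendsto (fun N => bt P (s N) a / bt P (s N) b * (g q * G (φ N)) a b) atTop
      (𝓝 ((g q * ((1 : Matrix (Fin n) (Fin n) ℝ) + Matrix.of B)) a b)) := by
    intro q a b
    have h1 : ∀ N, bt P (s N) a / bt P (s N) b * (g q * G (φ N)) a b =
        ∑ d, g q a d * (bt P (s N) d / bt P (s N) b * G (φ N) d b) := by
      intro N
      rw [Matrix.mul_apply, Finset.mul_sum]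
      refine Finset.sum_congr rfl fun d _ => ?_
      have h3 := (bt_pos P (s N) d).ne'
      have h4 : bt P (s N) a / bt P (s N) b * (g q a d * G (φ N) d b) =
          (bt P (s N) a / bt P (s N) d * g q a d) * (bt P (s N) d / bt P (s N) b * G (φ N) d b) := by
        field_simp
      rw [h4, huconj q N a d]
    simp_rw [h1]
    rw [Matrix.mul_apply]
    exact tendsto_finsetSum _ fun d _ => (hGlim d b).const_mul _
  obtain ⟨w, hw, hall⟩ := blow (orb_CI L) hbox (ι := ι ⊕ ι) (fun N => z (φ N)) (fun N => hz _)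
    (fun q N => Sum.elim (fun s => g s) (fun s => g s * G (φ N)) q)
    (fun q N => by
      rcases q with q | q
      · exact huz _ q
      · exact huGz _ q)
    (fun N => bt P (s N)) (fun N i => bt_pos P _ i) (fun N => bt_prod P _)
    (Sum.elim (fun s => g s) (fun s => g s * (1 + Matrix.of B)))
    (fun q a b => by
      rcases q with q | q
      · have : (fun N => bt P (s N) a / bt P (s N) b * g q a b) = fun _ => g q a b := by
          funext N; exact huconj q N a b
        show Tendsto (fun N => bt P (s N) a / bt P (s N) b * g q a b) atTop (𝓝 (g q a b))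
        rw [this]
        exact tendsto_const_nhds
      · exact huGlim q a b)
  refine ⟨w, hw, Matrix.of B, fun a b hab => ?_, hBne, ?_, ?_⟩
  · by_contra hcon
    exact hab (hBsupp a b hcon)
  · exact fun s => hall (Sum.inl s)
  · exact fun s => hall (Sum.inr s)

end Pool.Agent.Work.MP_77d073_nt.Root
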