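import Mathlib
import Pool.Agent.Work.MP_77d073_nt.Wall.Step
import Pool.Agent.Work.MP_77d073_nt.Wall.Keep
import Pool.Agent.Work.MP_77d073_nt.RootGraph

set_option autoImplicit false

/-!
IN (M-L).  At least `minFac n - 1` arrows enter every index (mirror image of OUT).

Put `X = closure (orb L)`.  `InvI X i k Q P` (below): there are `z ∈ X` and a family of
invertible matrices `g s` (inverse `h s`) with `g s z ∈ X`, compatible with the block `P`, equal to
`1 + (number) e_ki` on `P × P`, such that (3): a block `B` (rows OUTSIDE `P`, columns in `P`)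
with `(g s B h s)_{bi} = 0` for all `s`, `b ∈ Q` has zero columns `i` and `k`.

`in_step`.  PROOF.  `hbox` and `CI` as in `step_pair` (RootGraph.lean): `meets_box`, `orb_CI`.
`step_fam` for the block `Pᶜ` (its card `n - P.card` is coprime to `n`, compatibility with `Pᶜ` is
compatibility with `P`) gives `z ∈ X`, `B ≠ 0` with `B a b ≠ 0 → a ∉ P ∧ b ∈ P`, `g s z ∈ X`,
`g s (1 + B) z ∈ X`.  For `b ∈ Q` and any `s` we have `(g s B h s)_{bi} = 0`: put
`B' = g s * B * h s`, again such a block; `(1 + B') (g s z) = g s (1 + B) z ∈ X` since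
`h s * g s = 1` (`mul_eq_one_comm`), so `isolate` (with `Pᶜ`) would give the arrow `b → i`,
excluded by `hno`.  By (3) columns `i, k` of `B` vanish, so there is a column `a ∈ P`,
`a ≠ i, k`, with `B y a ≠ 0` for some `y ∉ P`.  Apply `keep` with `E = insert a Pᶜ` to the family
`ι ⊕ ι`, `G = g s` and `G = g s * (1 + B)`.
 * Hypothesis of `keep`, `x ∉ E` (so `x ∈ P`, `x ≠ a`), `y ∈ E`: if `y ∉ P` then `g s x y = 0` by
   compatibility; if `y = a` then `g s x a = 0` since `x ∈ P`, `x ≠ a`, and `a ≠ i`.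
   `g s * B` has only rows outside `P` (compatibility), so it vanishes at `x ∉ E`.
 * Result: `g s` is unchanged (entries `x ∈ E`, `y ∈ P`, `y ≠ a`: `x ∉ P` gives 0 by compatibility,
   `x = a` gives 0 since `a ≠ k`), and `g s + g s * B` becomes `g s + g s * B1` with
   `B1 x y = if y = a then B x a else 0` (rows of `g s * B` are outside `P`, columns `y ≠ a` are
   erased).
So there is `z'' ∈ X` with `g s z'' ∈ X` and `g s (1 + B1) z'' ∈ X` for all `s`, `B1 = σ e_a^T`,
`σ x = B x a` supported outside `P`, `σ ≠ 0`.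
New family: `ι ⊕ ι`, `g s`, `g s * (1 + B1)`, inverses `h s`, `(1 - B1) * h s` (`B1 * B1 = 0`).
Block `P' = P.erase a`.
 * compatibility with `P'`: `g s x y ≠ 0` gives `x ∈ P ↔ y ∈ P`; `x = a ≠ y` or `y = a ≠ x` is
   impossible inside `P` as `a ≠ i, k`.  `g s * B1` has rows outside `P` and column `a ∉ P'`.
   Same for `h s`, and `B1 * h s = B1` (row `a` of `h s` is `e_a`, as `a ∈ P`, `a ≠ k`).
 * on `P' × P'` the new matrices are `g s` and `h s` (the extra terms have column `a`).
 * (3) for `P'`: let `B'` have rows outside `P'`, columns in `P'`, with `(g' B' h')_{bi} = 0` for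
   `b ∈ Q` and all members `(g', h')` of the new family.  Write `B' = C + e_a w^T`,
   `C x y = if x = a then 0 else B' x y` (a block for `P`), `w y = B' a y` (supported in `P'`).
   Column `a` of `g s` is `e_a` (as `a ∈ P`, `a ≠ i`), so `g s e_a w^T h s = e_a (w^T h s)` has only
   the row `a ∉ Q`; hence `(g s C h s)_{bi} = 0` for `b ∈ Q` and (3) for `P` gives
   `C x i = 0`, `C x k = 0`.
   For `g' = g s (1 + B1)`: `B' * B1 = (B' σ) e_a^T = 0` (columns of `B'` are in `P'`, `σ` lives
   outside `P`), `B1 * B' = σ w^T`, so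
   `g' B' h' = g s (B' + σ w^T) h s = g s (C + σ w^T) h s + (row a)`.
   `C + σ w^T` is a block for `P`, so by (3) its columns `i, k` vanish; with the columns `i, k` of
   `C` zero and `σ ≠ 0` we get `w i = w k = 0`.  So columns `i, k` of `B'` vanish.

`in_final`.  PROOF.  Induction on `P.card` with `in_step`.

`in_deg`.  PROOF.  Let `N = {k ≠ i : Pr X k i}` and suppose `N.card < minFac n - 1`.  `leave` with
`I = {i}ᶜ` (`card + 1 = n`) gives `k ∈ N`.  `P = insert i N` has `card ≤ minFac n - 1 < n`, every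
`1 ≤ m ≤ P.card` is coprime to `n` (a common prime factor would be `≥ minFac n > m`).  `Q = Pᶜ`.
`InvI X i k Q P` holds: `Pr X k i` gives `Z ∈ X`, `Z' = ac (transvection k i 1) Z ∈ X`
(`ac_transvection`, see `step_pair`); family `Bool`: `1`, `transvection k i 1`; inverses `1`,
`transvection k i (-1)`; (3): `B b i = 0` for `b ∈ Q` from `g = 1` (for `b ∈ P` from the support)
and `(u B u⁻¹)_{bi} = B b i - B b k` for `b ∈ Q` (`conj_apply` with `k, i`; `B i i = B i k = 0`).
`hno` holds by the definition of `N`.  `in_final` gives a contradiction.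
-/

namespace Pool.Agent.Work.MP_77d073_nt.Root

open Filter Topology Pool.Agent.Work.MP_77d073_nt

/-- The inductive data for incoming arrows. -/
def InvI {n : ℕ} (X : Set (Fin n → Fin n → ℝ)) (i k : Fin n) (Q P : Finset (Fin n)) : Prop :=
  ∃ z ∈ X, ∃ (ι : Type) (g h : ι → Matrix (Fin n) (Fin n) ℝ),
    (∀ s, g s * h s = 1) ∧ (∀ s, ac (g s) z ∈ X) ∧
    (∀ s a b, g s a b ≠ 0 → (a ∈ P ↔ b ∈ P)) ∧ (∀ s a b, h s a b ≠ 0 → (a ∈ P ↔ b ∈ P)) ∧
    (∀ s, ∀ a ∈ P, ∀ b ∈ P, a ≠ b → g s a b ≠ 0 → a = k ∧ b = i) ∧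
    (∀ s, ∀ a ∈ P, ∀ b ∈ P, a ≠ b → h s a b ≠ 0 → a = k ∧ b = i) ∧
    (∀ s, ∀ a ∈ P, g s a a = 1) ∧ (∀ s, ∀ a ∈ P, h s a a = 1) ∧
    ∀ B : Matrix (Fin n) (Fin n) ℝ, (∀ a b, B a b ≠ 0 → a ∉ P ∧ b ∈ P) →
      (∀ s, ∀ b ∈ Q, (g s * B * h s) b i = 0) → ∀ a, B a i = 0 ∧ B a k = 0

private theorem blkMul {n : ℕ} {P : Finset (Fin n)} {g B : Matrix (Fin n) (Fin n) ℝ}
    (hg : ∀ a b, g a b ≠ 0 → (a ∈ P ↔ b ∈ P)) (hB : ∀ a b, B a b ≠ 0 → a ∉ P ∧ b ∈ P)
    (x y : Fin n) (h : (g * B) x y ≠ 0) : x ∉ P ∧ y ∈ P := by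
  rw [Matrix.mul_apply] at h
  obtain ⟨m, -, hm⟩ := Finset.exists_ne_zero_of_sum_ne_zero h
  have h1 := hg x m (left_ne_zero_of_mul hm)
  have h2 := hB m y (right_ne_zero_of_mul hm)
  exact ⟨fun hx => h2.1 (h1.1 hx), h2.2⟩

private theorem blkMulR {n : ℕ} {P : Finset (Fin n)} {g B : Matrix (Fin n) (Fin n) ℝ}
    (hg : ∀ a b, g a b ≠ 0 → (a ∈ P ↔ b ∈ P)) (hB : ∀ a b, B a b ≠ 0 → a ∉ P ∧ b ∈ P)
    (x y : Fin n) (h : (B * g) x y ≠ 0) : x ∉ P ∧ y ∈ P := by
  rw [Matrix.mul_apply] at h
  obtain ⟨m, -, hm⟩ := Finset.exists_ne_zero_of_sum_ne_zero h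
  have h1 := hg m y (right_ne_zero_of_mul hm)
  have h2 := hB x m (left_ne_zero_of_mul hm)
  exact ⟨h2.1, h1.1 h2.2⟩

/-- the matrix with row `a` equal to `w` -/
private def Ea {n : ℕ} (a : Fin n) (w : Fin n → ℝ) : Matrix (Fin n) (Fin n) ℝ :=
  fun x y => if x = a then w y else 0

private theorem ea_row {n : ℕ} {a b i : Fin n} {g h D : Matrix (Fin n) (Fin n) ℝ}
    (w : Fin n → ℝ) (hg : g b a = 0) :
    (g * (D + Ea a w) * h) b i = (g * D * h) b i := by
  have h1 : ∀ y, (g * (D + Ea a w)) b y = (g * D) b y := by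
    intro y
    rw [mul_add, Matrix.add_apply]
    have h2 : (g * Ea a w) b y = 0 := by
      rw [Matrix.mul_apply]
      refine Finset.sum_eq_zero fun m _ => ?_
      unfold Ea
      by_cases hm : m = a
      · rw [hm, hg, zero_mul]
      · rw [if_neg hm, mul_zero]
    rw [h2, add_zero]
  rw [Matrix.mul_apply, Matrix.mul_apply]
  exact Finset.sum_congr rfl fun y _ => by rw [h1]

private theorem tv_apply {n : ℕ} {i k : Fin n} (c : ℝ) (a b : Fin n) :
    Matrix.transvection i k c a b = (if a = b then 1 else 0) + if i = a ∧ k = b then c else 0 := by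
  classical
  rw [Matrix.transvection, Matrix.add_apply, Matrix.one_apply, Matrix.single_apply]

private theorem cop_compl {n p q : ℕ} (h : p + q = n) (hc : Nat.Coprime p n) :
    Nat.Coprime q n := by
  rw [← h] at hc ⊢
  have h1 : Nat.Coprime p q := by
    rwa [Nat.coprime_self_add_right] at hc
  rw [Nat.coprime_add_self_right]
  exact h1.symm

theorem in_step {n : ℕ} (hn : 3 ≤ n) {L : Fin n → Fin n → ℝ} (hL : LinearIndependent ℝ L)
    {c : ℝ} (hc : 0 < c) (hlow : ∀ p : Fin n → ℤ, p ≠ 0 → c ≤ |∏ i, ∑ j, L i j * (p j : ℝ)|)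
    (hnot : ¬ Cn L) {i k : Fin n} (hik : i ≠ k) {Q P : Finset (Fin n)} (hi : i ∈ P) (hk : k ∈ P)
    (hQ : ∀ b ∈ Q, b ∉ P) (hP' : Pᶜ.Nonempty) (hco : Nat.Coprime P.card n)
    (hno : ∀ b ∈ Q, ¬ Pr (closure (orb L)) b i) (h : InvI (closure (orb L)) i k Q P) :
    ∃ a ∈ P, a ≠ i ∧ a ≠ k ∧ InvI (closure (orb L)) i k Q (P.erase a) := by
  classical
  obtain ⟨z₀, hz₀, ι, g, h, hgh, hgz, hgP, hhP, hgo, hho, hg1, hh1, h3⟩ := h
  have hn1 : 1 ≤ n := by omega
  have hLdet := (li_iff_det L).mp hL
  have hD : 0 < |(Matrix.of L).det| := abs_pos.mpr hLdet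
  have hG : Good c |(Matrix.of L).det| (closure (orb L)) :=
    ⟨fun L' hL' => orb_det hL', fun L' hL' => orb_lower hL' hlow⟩
  obtain ⟨β, hβ, hbox0⟩ := meets_box (n := n) hn1 hc hD
  have hbox : Red (closure (orb L)) β := hbox0 _ (orb_CI L) hG
  have hhg : ∀ s, h s * g s = 1 := fun s => mul_eq_one_comm.mp (hgh s)
  have hcc : Nat.Coprime (Pᶜ).card n :=
    cop_compl (by rw [Finset.card_add_card_compl, Fintype.card_fin]) hco
  obtain ⟨z, hz, B, hB0, ⟨y0, a, hya⟩, hgz', hgBz⟩ := step_fam hn hL hc hlow hnot Pᶜ hP'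
    (by rw [compl_compl]; exact ⟨i, hi⟩) hcc g
    (fun s a b hab => by rw [Finset.mem_compl, Finset.mem_compl, hgP s a b hab]) hz₀ hgz
  have hB : ∀ a b, B a b ≠ 0 → a ∉ P ∧ b ∈ P := by
    intro a b hab
    have := hB0 a b hab
    rw [Finset.mem_compl, Finset.mem_compl, not_not] at this
    exact this
  have hz0 : ∀ s, ∀ b ∈ Q, (g s * B * h s) b i = 0 := by
    intro s b hb
    by_contra hne
    refine hno b hb (isolate (orb_CI L) hbox Pᶜ (g s * B * h s) ?_ (hgz' s) ?_ hne)
    · intro x y hxy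
      have := blkMulR (hhP s) (blkMul (hgP s) hB) x y hxy
      rw [Finset.mem_compl, Finset.mem_compl, not_not]
      exact this
    · rw [← ac_mul]
      have e : (1 + g s * B * h s) * g s = g s * (1 + B) := by
        rw [add_mul, one_mul, mul_add, mul_one, mul_assoc (g s * B), hhg s, mul_one]
      rw [e]
      exact hgBz s
  have hcol := h3 B hB hz0
  have hy0 : y0 ∉ P := (hB y0 a hya).1
  have ha : a ∈ P := (hB y0 a hya).2
  have hai : a ≠ i := fun e => hya (by rw [e]; exact (hcol y0).1)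
  have hak : a ≠ k := fun e => hya (by rw [e]; exact (hcol y0).2)
  refine ⟨a, ha, hai, hak, ?_⟩
  have hgc : ∀ s x, x ≠ a → g s x a = 0 := by
    intro s x hx
    by_contra hne
    have h1 : x ∈ P := (hgP s x a hne).2 ha
    exact hai (hgo s x h1 a ha hx hne).2
  have hga : ∀ s y, y ≠ a → g s a y = 0 := by
    intro s y hy
    by_contra hne
    have h1 : y ∈ P := (hgP s a y hne).1 ha
    exact hak (hgo s a ha y h1 (Ne.symm hy) hne).1
  have hhc : ∀ s x, x ≠ a → h s x a = 0 := by
    intro s x hx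
    by_contra hne
    have h1 : x ∈ P := (hhP s x a hne).2 ha
    exact hai (hho s x h1 a ha hx hne).2
  have hha : ∀ s y, y ≠ a → h s a y = 0 := by
    intro s y hy
    by_contra hne
    have h1 : y ∈ P := (hhP s a y hne).1 ha
    exact hak (hho s a ha y h1 (Ne.symm hy) hne).1
  have hBrow : ∀ x ∈ P, ∀ y, B x y = 0 := by
    intro x hx y
    by_contra hne
    exact (hB x y hne).1 hx
  obtain ⟨B1, hB1⟩ : ∃ B1 : Matrix (Fin n) (Fin n) ℝ,
      ∀ x y, B1 x y = if y = a then B x a else 0 := ⟨fun x y => if y = a then B x a else 0,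
        fun x y => rfl⟩
  have hgB1 : ∀ s x y, (g s * B1) x y = if y = a then (g s * B) x a else 0 := by
    intro s x y
    rw [Matrix.mul_apply]
    by_cases hy : y = a
    · rw [if_pos hy, Matrix.mul_apply]
      exact Finset.sum_congr rfl fun m _ => by rw [hB1, if_pos hy]
    · rw [if_neg hy]
      exact Finset.sum_eq_zero fun m _ => by rw [hB1, if_neg hy, mul_zero]
  have hB1g : ∀ (M : Matrix (Fin n) (Fin n) ℝ) x y, (B1 * M) x y = B x a * M a y := by
    intro M x y
    rw [Matrix.mul_apply, Finset.sum_eq_single a]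
    · rw [hB1, if_pos rfl]
    · intro m _ hm
      rw [hB1, if_neg hm, zero_mul]
    · intro hna
      exact absurd (Finset.mem_univ _) hna
  have hB1sq : B1 * B1 = 0 := by
    ext x y
    rw [hB1g, hB1, Matrix.zero_apply]
    split_ifs
    · rw [hBrow a ha a, mul_zero]
    · rw [mul_zero]
  have hE : ∀ x, x ∈ insert a Pᶜ ↔ x = a ∨ x ∉ P := fun x => by
    rw [Finset.mem_insert, Finset.mem_compl]
  obtain ⟨z'', hz'', hG''⟩ := keep (orb_CI L) hbox (insert a Pᶜ) (ι := ι ⊕ ι)
    (Sum.elim g (fun s => g s * (1 + B))) (by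
      have hg0 : ∀ s x y, x ∉ insert a Pᶜ → y ∈ insert a Pᶜ → g s x y = 0 := by
        intro s x y hx hy
        rw [hE, not_or, not_not] at hx
        rw [hE] at hy
        rcases hy with hy | hy
        · rw [hy]; exact hgc s x hx.1
        · by_contra hne
          exact hy ((hgP s x y hne).1 hx.2)
      rintro (s | s) x y hx hy
      · exact hg0 s x y hx hy
      · simp only [Sum.elim_inr]
        rw [mul_add, mul_one, Matrix.add_apply, hg0 s x y hx hy, zero_add]
        by_contra hne
        rw [hE, not_or, not_not] at hx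
        exact (blkMul (hgP s) hB x y hne).1 hx.2) hz (by
      rintro (s | s)
      · exact hgz' s
      · exact hgBz s)
  have e1 : ∀ s, ((fun x y => if x ∈ insert a Pᶜ ∧ y ∉ insert a Pᶜ then 0 else g s x y) :
      Matrix (Fin n) (Fin n) ℝ) = g s := by
    intro s
    funext x y
    split_ifs with hxy
    · rw [hE, hE, not_or, not_not] at hxy
      rcases hxy.1 with hx | hx
      · rw [hx, hga s y hxy.2.1]
      · by_contra hne
        exact hx ((hgP s x y (Ne.symm hne)).2 hxy.2.2)
    · rfl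
  have e2 : ∀ s, ((fun x y => if x ∈ insert a Pᶜ ∧ y ∉ insert a Pᶜ then 0
      else (g s * (1 + B) : Matrix (Fin n) (Fin n) ℝ) x y) : Matrix (Fin n) (Fin n) ℝ) =
      (g s * (1 + B1) : Matrix (Fin n) (Fin n) ℝ) := by
    intro s
    funext x y
    have h1 := congrFun (congrFun (e1 s) x) y
    rw [mul_add, mul_one, Matrix.add_apply, mul_add, mul_one, Matrix.add_apply, hgB1]
    by_cases hxy : x ∈ insert a Pᶜ ∧ y ∉ insert a Pᶜ
    · simp only [hxy, not_false_eq_true, and_self, if_true] at h1 ⊢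
      rw [← h1, zero_add]
      rw [if_neg]
      intro hy
      exact hxy.2 (by rw [hE]; exact Or.inl hy)
    · rw [if_neg hxy]
      congr 1
      by_cases hy : y = a
      · rw [if_pos hy, hy]
      · rw [if_neg hy]
        by_contra hne
        have h2 := blkMul (hgP s) hB x y hne
        apply hxy
        rw [hE, hE]
        exact ⟨Or.inr h2.1, fun h' => h'.elim hy (fun h'' => h'' h2.2)⟩
  have hgz1 : ∀ s, ac (g s) z'' ∈ closure (orb L) := by
    intro s
    have := hG'' (Sum.inl s)
    simp only [Sum.elim_inl] at this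
    rwa [e1 s] at this
  have hgz2 : ∀ s, ac (g s * (1 + B1)) z'' ∈ closure (orb L) := by
    intro s
    have := hG'' (Sum.inr s)
    simp only [Sum.elim_inr] at this
    rwa [e2 s] at this
  have hmem : ∀ x, x ∈ P.erase a ↔ x ≠ a ∧ x ∈ P := fun x => Finset.mem_erase
  have cg : ∀ s x y, g s x y ≠ 0 → (x ∈ P.erase a ↔ y ∈ P.erase a) := by
    intro s x y hne
    rw [hmem, hmem, hgP s x y hne]
    refine and_congr_left fun _ => ?_
    constructor
    · intro hx hy
      rw [hy] at hne
      exact hne (hgc s x hx)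
    · intro hy hx
      rw [hx] at hne
      exact hne (hga s y hy)
  have ch : ∀ s x y, h s x y ≠ 0 → (x ∈ P.erase a ↔ y ∈ P.erase a) := by
    intro s x y hne
    rw [hmem, hmem, hhP s x y hne]
    refine and_congr_left fun _ => ?_
    constructor
    · intro hx hy
      rw [hy] at hne
      exact hne (hhc s x hx)
    · intro hy hx
      rw [hx] at hne
      exact hne (hha s y hy)
  have cg1 : ∀ s x y, (g s * B1) x y ≠ 0 → x ∉ P ∧ y = a := by
    intro s x y hne
    rw [hgB1] at hne
    by_cases hy : y = a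
    · rw [if_pos hy] at hne
      exact ⟨(blkMul (hgP s) hB x a hne).1, hy⟩
    · rw [if_neg hy] at hne
      exact absurd rfl hne
  have ch1 : ∀ s x y, (B1 * h s) x y ≠ 0 → x ∉ P ∧ y = a := by
    intro s x y hne
    rw [hB1g] at hne
    refine ⟨(hB x a (left_ne_zero_of_mul hne)).1, ?_⟩
    by_contra hy
    exact right_ne_zero_of_mul hne (hha s y hy)
  have g2 : ∀ s x y, (g s * (1 + B1)) x y = g s x y + (g s * B1) x y := fun s x y => by
    rw [mul_add, mul_one, Matrix.add_apply]
  have h2 : ∀ s x y, ((1 - B1) * h s) x y = h s x y - (B1 * h s) x y := fun s x y => by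
    rw [sub_mul, one_mul, Matrix.sub_apply]
  refine ⟨z'', hz'', ι ⊕ ι, Sum.elim g (fun s => g s * (1 + B1)),
    Sum.elim h (fun s => (1 - B1) * h s), ?_, ?_, ?_, ?_, ?_, ?_, ?_, ?_, ?_⟩
  · rintro (s | s)
    · exact hgh s
    · simp only [Sum.elim_inr]
      have e : g s * (1 + B1) * ((1 - B1) * h s) = g s * ((1 + B1) * (1 - B1)) * h s := by
        simp only [mul_assoc]
      have e' : (1 + B1) * (1 - B1) = 1 := by
        rw [mul_sub, mul_one, add_mul, one_mul, hB1sq, add_zero, add_sub_cancel_right]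
      rw [e, e', mul_one]
      exact hgh s
  · rintro (s | s)
    · exact hgz1 s
    · exact hgz2 s
  · rintro (s | s) x y hne
    · exact cg s x y hne
    · simp only [Sum.elim_inr] at hne
      rw [g2] at hne
      by_cases h0 : (g s * B1) x y = 0
      · rw [h0, add_zero] at hne
        exact cg s x y hne
      · have := cg1 s x y h0
        rw [hmem, hmem]
        exact ⟨fun h' => absurd h'.2 this.1, fun h' => absurd this.2 h'.1⟩
  · rintro (s | s) x y hne
    · exact ch s x y hne
    · simp only [Sum.elim_inr] at hne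
      rw [h2] at hne
      by_cases h0 : (B1 * h s) x y = 0
      · rw [h0, sub_zero] at hne
        exact ch s x y hne
      · have := ch1 s x y h0
        rw [hmem, hmem]
        exact ⟨fun h' => absurd h'.2 this.1, fun h' => absurd this.2 h'.1⟩
  · rintro (s | s) x hx y hy hxy hne
    · exact hgo s x ((hmem x).1 hx).2 y ((hmem y).1 hy).2 hxy hne
    · simp only [Sum.elim_inr] at hne
      rw [g2] at hne
      have h0 : (g s * B1) x y = 0 := by
        by_contra h0
        exact (cg1 s x y h0).1 ((hmem x).1 hx).2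
      rw [h0, add_zero] at hne
      exact hgo s x ((hmem x).1 hx).2 y ((hmem y).1 hy).2 hxy hne
  · rintro (s | s) x hx y hy hxy hne
    · exact hho s x ((hmem x).1 hx).2 y ((hmem y).1 hy).2 hxy hne
    · simp only [Sum.elim_inr] at hne
      rw [h2] at hne
      have h0 : (B1 * h s) x y = 0 := by
        by_contra h0
        exact (ch1 s x y h0).1 ((hmem x).1 hx).2
      rw [h0, sub_zero] at hne
      exact hho s x ((hmem x).1 hx).2 y ((hmem y).1 hy).2 hxy hne
  · rintro (s | s) x hx
    · exact hg1 s x ((hmem x).1 hx).2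
    · simp only [Sum.elim_inr]
      rw [g2]
      have h0 : (g s * B1) x x = 0 := by
        by_contra h0
        exact (cg1 s x x h0).1 ((hmem x).1 hx).2
      rw [h0, add_zero]
      exact hg1 s x ((hmem x).1 hx).2
  · rintro (s | s) x hx
    · exact hh1 s x ((hmem x).1 hx).2
    · simp only [Sum.elim_inr]
      rw [h2]
      have h0 : (B1 * h s) x x = 0 := by
        by_contra h0
        exact (ch1 s x x h0).1 ((hmem x).1 hx).2
      rw [h0, sub_zero]
      exact hh1 s x ((hmem x).1 hx).2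
  · intro B' hB' hQ0
    obtain ⟨C, hC⟩ : ∃ C : Matrix (Fin n) (Fin n) ℝ,
        ∀ x y, C x y = if x = a then 0 else B' x y := ⟨fun x y => if x = a then 0 else B' x y,
          fun x y => rfl⟩
    have hCb : ∀ x y, C x y ≠ 0 → x ∉ P ∧ y ∈ P := by
      intro x y hne
      rw [hC] at hne
      by_cases hx : x = a
      · rw [if_pos hx] at hne
        exact absurd rfl hne
      · rw [if_neg hx] at hne
        have h4 := hB' x y hne
        rw [hmem, hmem] at h4
        exact ⟨fun h' => h4.1 ⟨hx, h'⟩, h4.2.2⟩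
    have hdec : B' = C + Ea a (B' a) := by
      ext x y
      rw [Matrix.add_apply, hC]
      unfold Ea
      by_cases hx : x = a
      · rw [if_pos hx, if_pos hx, zero_add, hx]
      · rw [if_neg hx, if_neg hx, add_zero]
    have hgQ : ∀ s, ∀ b ∈ Q, g s b a = 0 := by
      intro s b hb
      by_contra hne
      exact hQ b hb ((hgP s b a hne).2 ha)
    have hC0 := h3 C hCb (by
      intro s b hb
      have h4 := hQ0 (Sum.inl s) b hb
      simp only [Sum.elim_inl] at h4
      rw [hdec, ea_row (B' a) (hgQ s b hb)] at h4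
      exact h4)
    have hBB : B' * B1 = 0 := by
      ext x y
      rw [Matrix.mul_apply, Matrix.zero_apply]
      refine Finset.sum_eq_zero fun m _ => ?_
      by_contra hne
      have h4 := (hB' x m (left_ne_zero_of_mul hne)).2
      rw [hmem] at h4
      have h5 := right_ne_zero_of_mul hne
      rw [hB1] at h5
      by_cases hy : y = a
      · rw [if_pos hy] at h5
        exact (hB m a h5).1 h4.2
      · rw [if_neg hy] at h5
        exact h5 rfl
    have hS0 := h3 (C + B1 * B') (by
      intro x y hne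
      rw [Matrix.add_apply] at hne
      by_cases h4 : (B1 * B') x y = 0
      · rw [h4, add_zero] at hne
        exact hCb x y hne
      · rw [hB1g] at h4
        refine ⟨(hB x a (left_ne_zero_of_mul h4)).1, ?_⟩
        have h5 := (hB' a y (right_ne_zero_of_mul h4)).2
        rw [hmem] at h5
        exact h5.2) (by
      intro s b hb
      have h4 := hQ0 (Sum.inr s) b hb
      simp only [Sum.elim_inr] at h4
      have e : g s * (1 + B1) * B' * ((1 - B1) * h s) = g s * (C + B1 * B' + Ea a (B' a)) * h s := by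
        have e3 : (1 + B1) * B' * (1 - B1) = C + B1 * B' + Ea a (B' a) := by
          have e4 : C + B1 * B' + Ea a (B' a) = C + Ea a (B' a) + B1 * B' := by
            rw [add_assoc, add_comm (B1 * B'), ← add_assoc]
          rw [e4, ← hdec, mul_sub, mul_one, add_mul, one_mul, add_mul, hBB, mul_assoc, hBB,
            mul_zero, add_zero, sub_zero]
        rw [← e3]
        simp only [mul_assoc]
      rw [e, ea_row (B' a) (hgQ s b hb)] at h4
      exact h4)
    have hi0 : B' a i = 0 := by
      have h4 := (hS0 y0).1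
      rw [Matrix.add_apply, (hC0 y0).1, zero_add, hB1g] at h4
      exact (mul_eq_zero.1 h4).resolve_left hya
    have hk0 : B' a k = 0 := by
      have h4 := (hS0 y0).2
      rw [Matrix.add_apply, (hC0 y0).2, zero_add, hB1g] at h4
      exact (mul_eq_zero.1 h4).resolve_left hya
    intro x
    by_cases hx : x = a
    · rw [hx]
      exact ⟨hi0, hk0⟩
    · have h4 := hC0 x
      rw [hC, hC, if_neg hx, if_neg hx] at h4
      exact h4

theorem in_final {n : ℕ} (hn : 3 ≤ n) {L : Fin n → Fin n → ℝ} (hL : LinearIndependent ℝ L)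
    {c : ℝ} (hc : 0 < c) (hlow : ∀ p : Fin n → ℤ, p ≠ 0 → c ≤ |∏ i, ∑ j, L i j * (p j : ℝ)|)
    (hnot : ¬ Cn L) {i k : Fin n} (hik : i ≠ k) {Q : Finset (Fin n)}
    (hno : ∀ b ∈ Q, ¬ Pr (closure (orb L)) b i) (P : Finset (Fin n)) (hi : i ∈ P) (hk : k ∈ P)
    (hQ : ∀ b ∈ Q, b ∉ P) (hP' : Pᶜ.Nonempty)
    (hco : ∀ m : ℕ, 1 ≤ m → m ≤ P.card → Nat.Coprime m n) :
    ¬ InvI (closure (orb L)) i k Q P := by
  classical
  have key : ∀ (m : ℕ) (P : Finset (Fin n)), P.card = m → i ∈ P → k ∈ P → (∀ b ∈ Q, b ∉ P) →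
      Pᶜ.Nonempty → (∀ m : ℕ, 1 ≤ m → m ≤ P.card → Nat.Coprime m n) →
      ¬ InvI (closure (orb L)) i k Q P := by
    intro m
    induction m with
    | zero =>
      intro P hcard hi hk hQ hP' hco h
      have : P.card ≠ 0 := (Finset.card_pos.2 ⟨i, hi⟩).ne'
      exact this hcard
    | succ m ih =>
      intro P hcard hi hk hQ hP' hco h
      obtain ⟨a, ha, hai, hak, h'⟩ := in_step hn hL hc hlow hnot hik hi hk hQ hP'
        (hco _ (by omega) le_rfl) hno h
      refine ih (P.erase a) ?_ ?_ ?_ ?_ ?_ ?_ h'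
      · rw [Finset.card_erase_of_mem ha, hcard, Nat.add_sub_cancel]
      · exact Finset.mem_erase.2 ⟨Ne.symm hai, hi⟩
      · exact Finset.mem_erase.2 ⟨Ne.symm hak, hk⟩
      · intro b hb hb'
        exact hQ b hb (Finset.mem_of_mem_erase hb')
      · obtain ⟨x, hx⟩ := hP'
        refine ⟨x, ?_⟩
        rw [Finset.mem_compl] at hx ⊢
        exact fun hx' => hx (Finset.mem_of_mem_erase hx')
      · intro m' h1 h2
        exact hco m' h1 (h2.trans (Finset.card_le_card (Finset.erase_subset _ _)))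
  exact key _ P rfl hi hk hQ hP' hco

open Classical in
theorem in_deg {n : ℕ} (hn : 3 ≤ n) {L : Fin n → Fin n → ℝ} (hL : LinearIndependent ℝ L)
    {c : ℝ} (hc : 0 < c) (hlow : ∀ p : Fin n → ℤ, p ≠ 0 → c ≤ |∏ i, ∑ j, L i j * (p j : ℝ)|)
    (hnot : ¬ Cn L) (i : Fin n) :
    n.minFac - 1 ≤ (Finset.univ.filter fun k => k ≠ i ∧ Pr (closure (orb L)) k i).card := by
  by_contra hlt
  rw [not_le] at hlt
  obtain ⟨N, hN⟩ : ∃ N : Finset (Fin n),
      N = Finset.univ.filter fun k => k ≠ i ∧ Pr (closure (orb L)) k i := ⟨_, rfl⟩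
  rw [← hN] at hlt
  have hNm : ∀ x, x ∈ N ↔ x ≠ i ∧ Pr (closure (orb L)) x i := fun x => by
    rw [hN, Finset.mem_filter]
    exact and_iff_right (Finset.mem_univ _)
  have hcard1 : (({i} : Finset (Fin n))ᶜ).card + 1 = n := by
    have h1 := Finset.card_add_card_compl ({i} : Finset (Fin n))
    rw [Finset.card_singleton, Fintype.card_fin] at h1
    omega
  have hne1 : (({i} : Finset (Fin n))ᶜ).Nonempty := by
    rw [← Finset.card_pos]
    omega
  obtain ⟨k, hk, m, hm, hkm⟩ := leave hn hL hc hlow hnot (({i} : Finset (Fin n))ᶜ) hne1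
    (by rw [compl_compl]; exact Finset.singleton_nonempty i) (Or.inr (Or.inl hcard1))
  rw [Finset.mem_compl, Finset.mem_singleton] at hk
  rw [Finset.mem_compl, Finset.mem_singleton, not_not] at hm
  rw [hm] at hkm
  have hiN : i ∉ N := fun h => ((hNm i).1 h).1 rfl
  have hkN : k ∈ N := (hNm k).2 ⟨hk, hkm⟩
  obtain ⟨P, hPdef⟩ : ∃ P : Finset (Fin n), P = insert i N := ⟨_, rfl⟩
  have hPc : P.card = N.card + 1 := by
    rw [hPdef, Finset.card_insert_of_notMem hiN]
  have hmin : n.minFac ≤ n := Nat.minFac_le (by omega)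
  have hPlt : P.card < n.minFac := by omega
  have hi : i ∈ P := by rw [hPdef]; exact Finset.mem_insert_self _ _
  have hkP : k ∈ P := by rw [hPdef]; exact Finset.mem_insert_of_mem hkN
  have hP' : (Pᶜ).Nonempty := by
    rw [← Finset.card_pos]
    have h1 := Finset.card_add_card_compl P
    rw [Fintype.card_fin] at h1
    omega
  have hco : ∀ m : ℕ, 1 ≤ m → m ≤ P.card → Nat.Coprime m n := by
    intro m h1 h2
    by_contra hcop
    obtain ⟨p, hp, hpm, hpn⟩ := Nat.Prime.not_coprime_iff_dvd.1 hcop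
    have h4 := Nat.minFac_le_of_dvd hp.two_le hpn
    have h5 := Nat.le_of_dvd (by omega) hpm
    omega
  have hik : i ≠ k := Ne.symm hk
  have hno : ∀ b ∈ Pᶜ, ¬ Pr (closure (orb L)) b i := by
    intro b hb hpr
    rw [Finset.mem_compl] at hb
    apply hb
    rw [hPdef, Finset.mem_insert]
    by_cases hbi : b = i
    · exact Or.inl hbi
    · exact Or.inr ((hNm b).2 ⟨hbi, hpr⟩)
  refine in_final hn hL hc hlow hnot hik (Q := Pᶜ) hno P hi hkP
    (fun b hb => by rwa [Finset.mem_compl] at hb) hP' hco ?_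
  obtain ⟨Z, hZ, Z', hZ', hrel⟩ := hkm
  have hZZ' : ac (Matrix.transvection k i 1) Z = Z' := by
    funext a b
    rw [ac_transvection, hrel]
  have tsupp : ∀ (c : ℝ) (a b : Fin n), Matrix.transvection k i c a b ≠ 0 →
      (a = b ∨ (a = k ∧ b = i)) := by
    intro c a b hne
    rw [tv_apply] at hne
    by_cases h1 : a = b
    · exact Or.inl h1
    · rw [if_neg h1, zero_add] at hne
      by_cases h2 : k = a ∧ i = b
      · exact Or.inr ⟨h2.1.symm, h2.2.symm⟩
      · rw [if_neg h2] at hne
        exact absurd rfl hne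
  have tP : ∀ (c : ℝ) (a b : Fin n), Matrix.transvection k i c a b ≠ 0 → (a ∈ P ↔ b ∈ P) := by
    intro c a b hne
    rcases tsupp c a b hne with h1 | h1
    · rw [h1]
    · rw [h1.1, h1.2]
      exact ⟨fun _ => hi, fun _ => hkP⟩
  have tdiag : ∀ (c : ℝ) (a : Fin n), Matrix.transvection k i c a a = 1 := by
    intro c a
    rw [tv_apply, if_pos rfl, if_neg, add_zero]
    rintro ⟨h1, h2⟩
    exact hik (h2.trans h1.symm)
  have oneP : ∀ a b : Fin n, (1 : Matrix (Fin n) (Fin n) ℝ) a b ≠ 0 → a = b := by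
    intro a b hne
    by_contra h1
    exact hne (Matrix.one_apply_ne h1)
  refine ⟨Z, hZ, Bool, fun s => if s then Matrix.transvection k i 1 else 1,
    fun s => if s then Matrix.transvection k i (-1) else 1, ?_, ?_, ?_, ?_, ?_, ?_, ?_, ?_, ?_⟩
  · rintro (_ | _)
    · simp
    · simp only [if_true]
      rw [Matrix.transvection_mul_transvection_same _ _ (Ne.symm hik)]
      simp
  · rintro (_ | _)
    · simp only [Bool.false_eq_true, if_false]
      rw [ac_one]
      exact hZ
    · simp only [if_true]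
      rw [hZZ']
      exact hZ'
  · rintro (_ | _) a b hne
    · simp only [Bool.false_eq_true, if_false] at hne
      rw [oneP a b hne]
    · simp only [if_true] at hne
      exact tP _ a b hne
  · rintro (_ | _) a b hne
    · simp only [Bool.false_eq_true, if_false] at hne
      rw [oneP a b hne]
    · simp only [if_true] at hne
      exact tP _ a b hne
  · rintro (_ | _) a _ b _ hab hne
    · simp only [Bool.false_eq_true, if_false] at hne
      exact absurd (oneP a b hne) hab
    · simp only [if_true] at hne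
      exact (tsupp _ a b hne).resolve_left hab
  · rintro (_ | _) a _ b _ hab hne
    · simp only [Bool.false_eq_true, if_false] at hne
      exact absurd (oneP a b hne) hab
    · simp only [if_true] at hne
      exact (tsupp _ a b hne).resolve_left hab
  · rintro (_ | _) a _
    · simp only [Bool.false_eq_true, if_false]
      exact Matrix.one_apply_eq a
    · simp only [if_true]
      exact tdiag _ a
  · rintro (_ | _) a _
    · simp only [Bool.false_eq_true, if_false]
      exact Matrix.one_apply_eq a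
    · simp only [if_true]
      exact tdiag _ a
  · intro B hB hQ0 a
    by_cases haP : a ∈ P
    · constructor
      · by_contra hne
        exact (hB a i hne).1 haP
      · by_contra hne
        exact (hB a k hne).1 haP
    · have haQ : a ∈ Pᶜ := by rw [Finset.mem_compl]; exact haP
      have h1 : B a i = 0 := by
        have h4 := hQ0 false a haQ
        simp only [Bool.false_eq_true, if_false, one_mul, mul_one] at h4
        exact h4
      refine ⟨h1, ?_⟩
      have h4 := hQ0 true a haQ
      simp only [if_true] at h4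
      have hak : a ≠ k := fun h => haP (by rw [h]; exact hkP)
      rw [conj_apply, if_neg hak, add_zero, if_pos rfl, if_neg hak, add_zero, h1, zero_sub,
        neg_eq_zero] at h4
      exact h4

end Pool.Agent.Work.MP_77d073_nt.Root
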