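import Mathlib
import Pool.Agent.Work.MP_77d073_nt.Wall.Step
import Pool.Agent.Work.MP_77d073_nt.Wall.Keep
import Pool.Agent.Work.MP_77d073_nt.RootGraph

set_option autoImplicit false

/-!
OUT (M-L).  At least `minFac n - 1` arrows leave every index.

Put `X = closure (orb L)`.  `InvO X i k Q P` (below): there are `z ∈ X` and a family of
invertible matrices `g s` (inverse `h s`) with `g s z ∈ X`, compatible with the block `P`, equal to
`1 + (number) e_ik` on `P × P`, such that (3): a block `B` (rows in `P`, columns outside `P`)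
with `(g s B h s)_{ib} = 0` for all `s`, `b ∈ Q` has zero rows `i` and `k`.

`out_step`.  PROOF.  `hbox` and `CI` as in `step_pair` (RootGraph.lean): `meets_box`, `orb_CI`.
`step_fam` gives `z ∈ X`, a block `B ≠ 0`, `g s z ∈ X`, `g s (1 + B) z ∈ X`.  For `b ∈ Q` and any
`s` we have `(g s B h s)_{ib} = 0`: put `B' = g s * B * h s`, again a block (compatibility of `g s`
and `h s`); `(1 + B') (g s z) = g s (1 + B) z ∈ X` since `h s * g s = 1` (`mul_eq_one_comm`), so
`isolate` would give the arrow `i → b`, excluded by `hno`.  By (3) rows `i, k` of `B` vanish, so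
there is a row `a ∈ P`, `a ≠ i, k`, with `B a y ≠ 0` for some `y ∉ P`.  Apply `keep` with
`E = P.erase a` to the family `ι ⊕ ι`, `G = g s` and `G = g s * (1 + B)`.
 * Hypothesis of `keep`, `x ∉ E`, `y ∈ E`: if `x ∉ P` then `g s x y = 0` by compatibility; if
   `x = a` then `g s a y = 0` since `y ∈ P`, `y ≠ a`, and `a ≠ i`.  `g s * B` has only columns
   outside `P`, so it vanishes at `y ∈ E ⊆ P`.
 * Result: `g s` is unchanged (entries `x ∈ P`, `x ≠ a`, `y ∉ E`: `y ∉ P` gives 0 by compatibility,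
   `y = a` gives 0 since `a ≠ k`), and `g s + g s * B` becomes `g s + g s * B1` with
   `B1 x y = if x = a then B a y else 0`: rows of `g s * B` are in `P`, rows `x ≠ a` are erased,
   row `a` of `g s * B` is row `a` of `B` (row `a` of `g s` on `P` is `e_a`), and
   `g s * B1 = B1` (column `a` of `g s` is `e_a`, as `a ≠ k` and `a ∈ P`).
So there is `z'' ∈ X` with `g s z'' ∈ X` and `g s (1 + B1) z'' ∈ X` for all `s`, `B1 = e_a ρ^T`,
`ρ = B a` supported outside `P`, `ρ ≠ 0`.
New family: `ι ⊕ ι`, `g s`, `g s * (1 + B1)`, inverses `h s`, `(1 - B1) * h s` (`B1 * B1 = 0`).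
Block `P' = P.erase a`.
 * compatibility with `P'`: `g s x y ≠ 0` gives `x ∈ P ↔ y ∈ P`; `x = a ≠ y` or `y = a ≠ x` is
   impossible inside `P` as `a ≠ i, k`.  `g s * B1 = B1` has row `a ∉ P'` and columns outside `P`.
   Same for `h s` and `B1 * h s` (row `a`, columns outside `P` by compatibility of `h s`).
 * on `P' × P'` the new matrices are `g s` and `h s` (the extra terms have row `a`).
 * (3) for `P'`: let `B'` be a block for `P'` with `(g' B' h')_{ib} = 0` for `b ∈ Q` and all members
   `(g', h')` of the new family.  Write `B' = C + v e_a^T`, `C x y = if y = a then 0 else B' x y`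
   (a block for `P`), `v x = B' x a` (supported in `P'`).  Row `a` of `h s` is `e_a` (as `a ∈ P`,
   `a ≠ i`), so `v e_a^T h s = v e_a^T` has only the column `a ∉ Q`; hence
   `(g s C h s)_{ib} = 0` for `b ∈ Q` and (3) for `P` gives `C i = 0`, `C k = 0`.
   For `g' = g s (1 + B1)`: `B1 * B' = e_a (ρ^T B') = 0` (rows of `B'` are in `P'`, `ρ` lives
   outside `P`), `B' * B1 = v ρ^T`, so
   `g' B' h' = g s (B' - v ρ^T) h s = g s (C - v ρ^T) h s + (column a)`.
   `C - v ρ^T` is a block for `P`, so by (3) its rows `i, k` vanish; with `C i = C k = 0` and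
   `ρ ≠ 0` we get `v i = v k = 0`.  So rows `i, k` of `B'` vanish.

`out_final`.  PROOF.  Induction on `P.card` with `out_step` (the card drops by one, `i, k ∈ P.erase a`,
`(P.erase a)ᶜ` is nonempty, `Q` stays disjoint).

`out_deg`.  PROOF.  Let `N = {k ≠ i : Pr X i k}` and suppose `N.card < minFac n - 1`.  `leave` with
`I = {i}` (card 1) gives `k ∈ N`.  `P = insert i N` has `card ≤ minFac n - 1 < n`, every
`1 ≤ m ≤ P.card` is coprime to `n` (a common prime factor would be `≥ minFac n > m`).  `Q = Pᶜ`.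
`InvO X i k Q P` holds: `Pr X i k` gives `Z ∈ X`, `Z' = ac (transvection i k 1) Z ∈ X`
(`ac_transvection`, see `step_pair`); family `Bool`: `1`, `transvection i k 1`; inverses `1`,
`transvection i k (-1)`; (3): `B i b = 0` for `b ∈ Q` from `g = 1` (for `b ∈ P` from the support)
and `(u B u⁻¹)_{ib} = B i b + B k b` for `b ≠ k` (`conj_apply`).  `hno` holds by the definition of
`N`.  `out_final` gives a contradiction.
-/

namespace Pool.Agent.Work.MP_77d073_nt.Root

open Filter Topology Pool.Agent.Work.MP_77d073_nt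

/-- The inductive data for outgoing arrows. -/
def InvO {n : ℕ} (X : Set (Fin n → Fin n → ℝ)) (i k : Fin n) (Q P : Finset (Fin n)) : Prop :=
  ∃ z ∈ X, ∃ (ι : Type) (g h : ι → Matrix (Fin n) (Fin n) ℝ),
    (∀ s, g s * h s = 1) ∧ (∀ s, ac (g s) z ∈ X) ∧
    (∀ s a b, g s a b ≠ 0 → (a ∈ P ↔ b ∈ P)) ∧ (∀ s a b, h s a b ≠ 0 → (a ∈ P ↔ b ∈ P)) ∧
    (∀ s, ∀ a ∈ P, ∀ b ∈ P, a ≠ b → g s a b ≠ 0 → a = i ∧ b = k) ∧
    (∀ s, ∀ a ∈ P, ∀ b ∈ P, a ≠ b → h s a b ≠ 0 → a = i ∧ b = k) ∧
    (∀ s, ∀ a ∈ P, g s a a = 1) ∧ (∀ s, ∀ a ∈ P, h s a a = 1) ∧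
    ∀ B : Matrix (Fin n) (Fin n) ℝ, (∀ a b, B a b ≠ 0 → a ∈ P ∧ b ∉ P) →
      (∀ s, ∀ b ∈ Q, (g s * B * h s) i b = 0) → ∀ b, B i b = 0 ∧ B k b = 0

/-- the properties of one member of the family -/
private structure Mem {n : ℕ} (P : Finset (Fin n)) (i k : Fin n) (g : Matrix (Fin n) (Fin n) ℝ) :
    Prop where
  comp : ∀ a b, g a b ≠ 0 → (a ∈ P ↔ b ∈ P)
  off : ∀ a ∈ P, ∀ b ∈ P, a ≠ b → g a b ≠ 0 → a = i ∧ b = k
  diag : ∀ a ∈ P, g a a = 1

private theorem Mem.row {n : ℕ} {P : Finset (Fin n)} {i k : Fin n}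
    {g : Matrix (Fin n) (Fin n) ℝ} (h : Mem P i k g) {a : Fin n} (ha : a ∈ P) (hai : a ≠ i)
    (c : Fin n) : g a c = if c = a then 1 else 0 := by
  split_ifs with h1
  · rw [h1]
    exact h.diag a ha
  · by_contra h2
    have h3 := (h.comp a c h2).1 ha
    exact hai (h.off a ha c h3 (Ne.symm h1) h2).1

private theorem Mem.col {n : ℕ} {P : Finset (Fin n)} {i k : Fin n}
    {g : Matrix (Fin n) (Fin n) ℝ} (h : Mem P i k g) {a : Fin n} (ha : a ∈ P) (hak : a ≠ k)
    (c : Fin n) : g c a = if c = a then 1 else 0 := by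
  split_ifs with h1
  · rw [h1]
    exact h.diag a ha
  · by_contra h2
    have h3 := (h.comp c a h2).2 ha
    exact hak (h.off c h3 a ha h1 h2).2

private theorem mul_supp_left {n : ℕ} {P : Finset (Fin n)} {i k : Fin n}
    {g B : Matrix (Fin n) (Fin n) ℝ} (h : Mem P i k g) (hB : ∀ a b, B a b ≠ 0 → a ∈ P ∧ b ∉ P)
    (x y : Fin n) (hxy : (g * B) x y ≠ 0) : x ∈ P ∧ y ∉ P := by
  rw [Matrix.mul_apply] at hxy
  obtain ⟨c, -, hc⟩ := Finset.exists_ne_zero_of_sum_ne_zero hxy
  have h1 := hB c y (right_ne_zero_of_mul hc)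
  exact ⟨(h.comp x c (left_ne_zero_of_mul hc)).2 h1.1, h1.2⟩

private theorem mul_supp_right {n : ℕ} {P : Finset (Fin n)} {i k : Fin n}
    {g B : Matrix (Fin n) (Fin n) ℝ} (h : Mem P i k g) (hB : ∀ a b, B a b ≠ 0 → a ∈ P ∧ b ∉ P)
    (x y : Fin n) (hxy : (B * g) x y ≠ 0) : x ∈ P ∧ y ∉ P := by
  rw [Matrix.mul_apply] at hxy
  obtain ⟨c, -, hc⟩ := Finset.exists_ne_zero_of_sum_ne_zero hxy
  have h1 := hB x c (left_ne_zero_of_mul hc)
  exact ⟨h1.1, fun h2 => h1.2 ((h.comp c y (right_ne_zero_of_mul hc)).2 h2)⟩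

/-- the block with the single row `a` -/
private def rw1 {n : ℕ} (a : Fin n) (ρ : Fin n → ℝ) : Matrix (Fin n) (Fin n) ℝ :=
  fun x y => if x = a then ρ y else 0

/-- the matrix with the single column `a` -/
private def cl1 {n : ℕ} (a : Fin n) (v : Fin n → ℝ) : Matrix (Fin n) (Fin n) ℝ :=
  fun x y => if y = a then v x else 0

private theorem g_rw1 {n : ℕ} {P : Finset (Fin n)} {i k : Fin n}
    {g : Matrix (Fin n) (Fin n) ℝ} (h : Mem P i k g) {a : Fin n} (ha : a ∈ P) (hak : a ≠ k)
    (ρ : Fin n → ℝ) : g * rw1 a ρ = rw1 a ρ := by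
  ext x y
  rw [Matrix.mul_apply]
  simp only [rw1, mul_ite, mul_zero, Finset.sum_ite_eq', Finset.mem_univ, if_true]
  rw [h.col ha hak x]
  split_ifs <;> simp

private theorem rw1_mul {n : ℕ} (a : Fin n) (ρ : Fin n → ℝ) (B : Matrix (Fin n) (Fin n) ℝ) :
    rw1 a ρ * B = rw1 a (fun y => ∑ c, ρ c * B c y) := by
  ext x y
  rw [Matrix.mul_apply]
  simp only [rw1]
  split_ifs with h
  · rfl
  · simp

private theorem mul_cl1_row {n : ℕ} (a : Fin n) (v : Fin n → ℝ) (g : Matrix (Fin n) (Fin n) ℝ) :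
    g * cl1 a v = cl1 a (fun x => ∑ c, g x c * v c) := by
  ext x y
  rw [Matrix.mul_apply]
  simp only [cl1]
  split_ifs with h
  · rfl
  · simp

private theorem cl1_mul {n : ℕ} {P : Finset (Fin n)} {i k : Fin n}
    {g : Matrix (Fin n) (Fin n) ℝ} (h : Mem P i k g) {a : Fin n} (ha : a ∈ P) (hai : a ≠ i)
    (v : Fin n → ℝ) : cl1 a v * g = cl1 a v := by
  ext x y
  rw [Matrix.mul_apply]
  simp only [cl1, ite_mul, zero_mul, Finset.sum_ite_eq', Finset.mem_univ, if_true]
  rw [h.row ha hai y]
  split_ifs <;> simp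

private theorem rw1_sq {n : ℕ} {P : Finset (Fin n)} {a : Fin n} (ha : a ∈ P) {ρ : Fin n → ℝ}
    (hρ : ∀ y, ρ y ≠ 0 → y ∉ P) : rw1 a ρ * rw1 a ρ = 0 := by
  rw [rw1_mul]
  ext x y
  simp only [rw1, Matrix.zero_apply]
  split_ifs with h
  · refine Finset.sum_eq_zero fun c _ => ?_
    split_ifs with h1
    · have : ρ c = 0 := by
        by_contra h2
        exact hρ c h2 (h1 ▸ ha)
      rw [this, zero_mul]
    · rw [mul_zero]
  · rfl

/-- the family member with the extra row -/
private theorem Mem.plus {n : ℕ} {P : Finset (Fin n)} {i k : Fin n}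
    {g : Matrix (Fin n) (Fin n) ℝ} (h : Mem P i k g) {a : Fin n} (ha : a ∈ P) (hai : a ≠ i)
    (hak : a ≠ k) {τ : Fin n → ℝ} (hτ : ∀ y, τ y ≠ 0 → y ∉ P) :
    Mem (P.erase a) i k (g + rw1 a τ) := by
  refine ⟨fun x y hxy => ?_, fun x hx y hy hne hxy => ?_, fun x hx => ?_⟩
  · rw [Matrix.add_apply] at hxy
    by_cases h1 : g x y = 0
    · rw [h1, zero_add] at hxy
      simp only [rw1] at hxy
      by_cases h2 : x = a
      · rw [if_pos h2] at hxy
        have h3 := hτ y hxy
        constructor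
        · intro h4
          exact absurd h2 (Finset.ne_of_mem_erase h4)
        · intro h4
          exact absurd (Finset.mem_of_mem_erase h4) h3
      · rw [if_neg h2] at hxy
        exact absurd rfl hxy
    · have h2 := h.comp x y h1
      have h3 : x = a → y = a := by
        intro hx
        by_contra hy
        rw [hx, h.row ha hai y, if_neg hy] at h1
        exact h1 rfl
      have h4 : y = a → x = a := by
        intro hy
        by_contra hx
        rw [hy, h.col ha hak x, if_neg hx] at h1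
        exact h1 rfl
      rw [Finset.mem_erase, Finset.mem_erase, h2]
      constructor
      · rintro ⟨h5, h6⟩
        exact ⟨fun h7 => h5 (h4 h7), h6⟩
      · rintro ⟨h5, h6⟩
        exact ⟨fun h7 => h5 (h3 h7), h6⟩
  · rw [Finset.mem_erase] at hx hy
    rw [Matrix.add_apply] at hxy
    simp only [rw1] at hxy
    rw [if_neg hx.1, add_zero] at hxy
    exact h.off x hx.2 y hy.2 hne hxy
  · rw [Finset.mem_erase] at hx
    rw [Matrix.add_apply]
    simp only [rw1]
    rw [if_neg hx.1, add_zero]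
    exact h.diag x hx.2

private theorem Mem.same {n : ℕ} {P : Finset (Fin n)} {i k : Fin n}
    {g : Matrix (Fin n) (Fin n) ℝ} (h : Mem P i k g) {a : Fin n} (ha : a ∈ P) (hai : a ≠ i)
    (hak : a ≠ k) : Mem (P.erase a) i k g := by
  have h1 := h.plus ha hai hak (τ := fun _ => 0) (fun y hy => absurd rfl hy)
  have h2 : g + rw1 a (fun _ => (0 : ℝ)) = g := by
    ext x y
    rw [Matrix.add_apply]
    simp only [rw1, ite_self, add_zero]
  rwa [h2] at h1

theorem out_step {n : ℕ} (hn : 3 ≤ n) {L : Fin n → Fin n → ℝ} (hL : LinearIndependent ℝ L)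
    {c : ℝ} (hc : 0 < c) (hlow : ∀ p : Fin n → ℤ, p ≠ 0 → c ≤ |∏ i, ∑ j, L i j * (p j : ℝ)|)
    (hnot : ¬ Cn L) {i k : Fin n} (hik : i ≠ k) {Q P : Finset (Fin n)} (hi : i ∈ P) (hk : k ∈ P)
    (hQ : ∀ b ∈ Q, b ∉ P) (hP' : Pᶜ.Nonempty) (hco : Nat.Coprime P.card n)
    (hno : ∀ b ∈ Q, ¬ Pr (closure (orb L)) i b) (h : InvO (closure (orb L)) i k Q P) :
    ∃ a ∈ P, a ≠ i ∧ a ≠ k ∧ InvO (closure (orb L)) i k Q (P.erase a) := by
  classical
  have hn1 : 1 ≤ n := by omega
  have hLdet := (li_iff_det L).mp hL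
  have hD : 0 < |(Matrix.of L).det| := abs_pos.mpr hLdet
  have hG : Good c |(Matrix.of L).det| (closure (orb L)) :=
    ⟨fun L' hL' => orb_det hL', fun L' hL' => orb_lower hL' hlow⟩
  obtain ⟨β, hβ, hbox0⟩ := meets_box (n := n) hn1 hc hD
  have hbox : Red (closure (orb L)) β := hbox0 _ (orb_CI L) hG
  obtain ⟨x, hx, ι, g, h, hgh, hgx, hgc, hhc, hgo, hho, hgd, hhd, h3⟩ := h
  have mg : ∀ s, Mem P i k (g s) := fun s => ⟨hgc s, hgo s, hgd s⟩
  have mh : ∀ s, Mem P i k (h s) := fun s => ⟨hhc s, hho s, hhd s⟩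
  have hhg : ∀ s, h s * g s = 1 := fun s => mul_eq_one_comm.1 (hgh s)
  obtain ⟨z, hz, B, hB, ⟨a0, y0, hB0⟩, hgz, hgBz⟩ :=
    step_fam hn hL hc hlow hnot P ⟨i, hi⟩ hP' hco g hgc hx hgx
  -- the rows i and k of B vanish
  have hrow : ∀ b, B i b = 0 ∧ B k b = 0 := by
    refine h3 B hB fun s b hb => ?_
    by_contra hcon
    refine hno b hb (isolate (orb_CI L) hbox P (g s * B * h s) ?_ (hgz s) ?_ hcon)
    · intro x' y' hxy
      exact mul_supp_right (mh s) (fun a b hab => mul_supp_left (mg s) hB a b hab) x' y' hxy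
    · rw [← ac_mul]
      have : (1 + g s * B * h s) * g s = g s * (1 + B) := by
        rw [add_mul, one_mul, mul_add, mul_one, mul_assoc, hhg, mul_one]
      rw [this]
      exact hgBz s
  obtain ⟨ha, hy0⟩ := hB a0 y0 hB0
  have hai : a0 ≠ i := by
    rintro rfl
    exact hB0 (hrow y0).1
  have hak : a0 ≠ k := by
    rintro rfl
    exact hB0 (hrow y0).2
  set ρ : Fin n → ℝ := B a0 with hρdef
  have hρ : ∀ y, ρ y ≠ 0 → y ∉ P := fun y hy => (hB a0 y hy).2
  have hgr : ∀ s, g s * rw1 a0 ρ = rw1 a0 ρ := fun s => g_rw1 (mg s) ha hak ρ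
  -- apply keep
  obtain ⟨w, hw, hkeep⟩ := keep (orb_CI L) hbox (P.erase a0)
    (Sum.elim g (fun s => g s * (1 + B))) (by
      rintro (s | s) x' y' hx' hy'
      · rw [Finset.mem_erase] at hy'
        simp only [Sum.elim_inl]
        by_contra hcon
        have h1 := ((mg s).comp x' y' hcon).2 hy'.2
        have h2 : x' = a0 := by
          by_contra h2
          exact hx' (Finset.mem_erase.2 ⟨h2, h1⟩)
        rw [h2, (mg s).row ha hai y', if_neg hy'.1] at hcon
        exact hcon rfl
      · rw [Finset.mem_erase] at hy'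
        simp only [Sum.elim_inr]
        rw [mul_add, mul_one, Matrix.add_apply]
        have e1 : g s x' y' = 0 := by
          by_contra hcon
          have h1 := ((mg s).comp x' y' hcon).2 hy'.2
          have h2 : x' = a0 := by
            by_contra h2
            exact hx' (Finset.mem_erase.2 ⟨h2, h1⟩)
          rw [h2, (mg s).row ha hai y', if_neg hy'.1] at hcon
          exact hcon rfl
        have e2 : (g s * B) x' y' = 0 := by
          by_contra hcon
          exact (mul_supp_left (mg s) hB x' y' hcon).2 hy'.2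
        rw [e1, e2, add_zero]) hz (by
      rintro (s | s)
      · exact hgz s
      · exact hgBz s)
  have k1 : ∀ s, ac (g s) w ∈ closure (orb L) := by
    intro s
    have h1 := hkeep (Sum.inl s)
    have h2 : (fun x' y' => if x' ∈ P.erase a0 ∧ y' ∉ P.erase a0 then 0 else
        (Sum.elim g (fun s => g s * (1 + B)) (Sum.inl s)) x' y') = g s := by
      funext x' y'
      simp only [Sum.elim_inl]
      split_ifs with h4
      · obtain ⟨h5, h6⟩ := h4
        rw [Finset.mem_erase] at h5
        by_contra hcon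
        have h7 := ((mg s).comp x' y' (Ne.symm hcon)).1 h5.2
        have h8 : y' = a0 := by
          by_contra h8
          exact h6 (Finset.mem_erase.2 ⟨h8, h7⟩)
        rw [h8, (mg s).col ha hak x', if_neg h5.1] at hcon
        exact hcon rfl
      · rfl
    rwa [h2] at h1
  have k2 : ∀ s, ac (g s + rw1 a0 ρ) w ∈ closure (orb L) := by
    intro s
    have h1 := hkeep (Sum.inr s)
    have h2 : (fun x' y' => if x' ∈ P.erase a0 ∧ y' ∉ P.erase a0 then 0 else
        (Sum.elim g (fun s => g s * (1 + B)) (Sum.inr s)) x' y') = g s + rw1 a0 ρ := by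
      funext x' y'
      simp only [Sum.elim_inr]
      rw [mul_add, mul_one, Matrix.add_apply, Matrix.add_apply]
      split_ifs with h4
      · obtain ⟨h5, h6⟩ := h4
        rw [Finset.mem_erase] at h5
        have e1 : g s x' y' = 0 := by
          by_contra hcon
          have h7 := ((mg s).comp x' y' hcon).1 h5.2
          have h8 : y' = a0 := by
            by_contra h8
            exact h6 (Finset.mem_erase.2 ⟨h8, h7⟩)
          rw [h8, (mg s).col ha hak x', if_neg h5.1] at hcon
          exact hcon rfl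
        simp only [rw1]
        rw [e1, if_neg h5.1, add_zero]
      · congr 1
        simp only [rw1]
        split_ifs with h5
        · rw [h5, Matrix.mul_apply]
          simp only [(mg s).row ha hai, ite_mul, one_mul, zero_mul, Finset.sum_ite_eq',
            Finset.mem_univ, if_true]
          rfl
        · by_contra hcon
          obtain ⟨h6, h7⟩ := mul_supp_left (mg s) hB x' y' hcon
          exact h4 ⟨Finset.mem_erase.2 ⟨h5, h6⟩, fun h8 => h7 (Finset.mem_of_mem_erase h8)⟩
    rwa [h2] at h1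
  have hsq : rw1 a0 ρ * rw1 a0 ρ = 0 := rw1_sq ha hρ
  have hrh : ∀ s, (1 - rw1 a0 ρ) * h s = h s + rw1 a0 (fun y => - ∑ c, ρ c * h s c y) := by
    intro s
    rw [sub_mul, one_mul, rw1_mul, sub_eq_add_neg]
    congr 1
    ext x' y'
    rw [Matrix.neg_apply]
    simp only [rw1]
    split_ifs <;> simp
  have mg2 : ∀ s, Mem (P.erase a0) i k (g s + rw1 a0 ρ) := fun s => (mg s).plus ha hai hak hρ
  have mh2 : ∀ s, Mem (P.erase a0) i k ((1 - rw1 a0 ρ) * h s) := by
    intro s
    rw [hrh s]
    refine (mh s).plus ha hai hak ?_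
    intro y hy hyP
    apply hy
    rw [neg_eq_zero]
    refine Finset.sum_eq_zero fun c' _ => ?_
    by_contra hcon
    have h1 := hρ c' (left_ne_zero_of_mul hcon)
    exact h1 (((mh s).comp c' y (right_ne_zero_of_mul hcon)).2 hyP)
  refine ⟨a0, ha, hai, hak, w, hw, ι ⊕ ι, Sum.elim g (fun s => g s + rw1 a0 ρ),
    Sum.elim h (fun s => (1 - rw1 a0 ρ) * h s), ?_, ?_, ?_, ?_, ?_, ?_, ?_, ?_, ?_⟩
  · rintro (s | s)
    · exact hgh s
    · simp only [Sum.elim_inr]
      have e1 : g s + rw1 a0 ρ = g s * (1 + rw1 a0 ρ) := by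
        rw [mul_add, mul_one, hgr]
      have e2 : (1 + rw1 a0 ρ) * (1 - rw1 a0 ρ) = 1 := by
        rw [mul_sub, mul_one, add_mul, one_mul, hsq, add_zero, add_sub_cancel_right]
      rw [e1, mul_assoc, ← mul_assoc (1 + rw1 a0 ρ), e2, one_mul, hgh]
  · rintro (s | s)
    · exact k1 s
    · exact k2 s
  · rintro (s | s)
    · exact ((mg s).same ha hai hak).comp
    · exact (mg2 s).comp
  · rintro (s | s)
    · exact ((mh s).same ha hai hak).comp
    · exact (mh2 s).comp
  · rintro (s | s)
    · exact ((mg s).same ha hai hak).off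
    · exact (mg2 s).off
  · rintro (s | s)
    · exact ((mh s).same ha hai hak).off
    · exact (mh2 s).off
  · rintro (s | s)
    · exact ((mg s).same ha hai hak).diag
    · exact (mg2 s).diag
  · rintro (s | s)
    · exact ((mh s).same ha hai hak).diag
    · exact (mh2 s).diag
  · intro B' hB' hB0'
    -- split B'
    set v : Fin n → ℝ := fun x => B' x a0 with hv
    set C : Matrix (Fin n) (Fin n) ℝ := fun x y => if y = a0 then 0 else B' x y with hC
    have hBC : B' = C + cl1 a0 v := by
      ext x' y'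
      rw [Matrix.add_apply]
      simp only [hC, cl1, hv]
      split_ifs with h4
      · rw [h4, zero_add]
      · rw [add_zero]
    have hCblk : ∀ x' y', C x' y' ≠ 0 → x' ∈ P ∧ y' ∉ P := by
      intro x' y' h4
      simp only [hC] at h4
      by_cases h5 : y' = a0
      · rw [if_pos h5] at h4
        exact absurd rfl h4
      · rw [if_neg h5] at h4
        obtain ⟨h6, h7⟩ := hB' x' y' h4
        exact ⟨Finset.mem_of_mem_erase h6, fun h8 => h7 (Finset.mem_erase.2 ⟨h5, h8⟩)⟩
    have hvP : ∀ x', v x' ≠ 0 → x' ∈ P := fun x' h4 => Finset.mem_of_mem_erase (hB' x' a0 h4).1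
    have hVz : ∀ s, ∀ b ∈ Q, (g s * cl1 a0 v * h s) i b = 0 := by
      intro s b hb
      rw [mul_assoc, cl1_mul (mh s) ha hai, mul_cl1_row]
      simp only [cl1]
      rw [if_neg]
      rintro rfl
      exact hQ b hb ha
    have hCz : ∀ b, C i b = 0 ∧ C k b = 0 := by
      refine h3 C hCblk fun s b hb => ?_
      have h4 := hB0' (Sum.inl s) b hb
      simp only [Sum.elim_inl] at h4
      rw [hBC, mul_add, add_mul, Matrix.add_apply, hVz s b hb, add_zero] at h4
      exact h4
    -- the second use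
    set D : Matrix (Fin n) (Fin n) ℝ := fun x y => C x y - v x * ρ y with hDdef
    have hB1B : rw1 a0 ρ * B' = 0 := by
      rw [rw1_mul]
      ext x' y'
      simp only [rw1, Matrix.zero_apply]
      split_ifs with h4
      · refine Finset.sum_eq_zero fun c' _ => ?_
        by_contra hcon
        exact hρ c' (left_ne_zero_of_mul hcon)
          (Finset.mem_of_mem_erase (hB' c' y' (right_ne_zero_of_mul hcon)).1)
      · rfl
    have hBB1 : ∀ x' y', (B' * rw1 a0 ρ) x' y' = v x' * ρ y' := by
      intro x' y'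
      rw [Matrix.mul_apply]
      simp only [rw1, mul_ite, mul_zero, Finset.sum_ite_eq', Finset.mem_univ, if_true, hv]
    have hDV : (1 + rw1 a0 ρ) * B' * (1 - rw1 a0 ρ) = D + cl1 a0 v := by
      rw [add_mul, one_mul, hB1B, add_zero, mul_sub, mul_one]
      ext x' y'
      rw [Matrix.sub_apply, hBB1, Matrix.add_apply]
      have h4 : B' x' y' = C x' y' + cl1 a0 v x' y' := by
        rw [← Matrix.add_apply, ← hBC]
      rw [h4]
      simp only [hDdef]
      ring
    have hDblk : ∀ x' y', D x' y' ≠ 0 → x' ∈ P ∧ y' ∉ P := by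
      intro x' y' h4
      by_cases h5 : C x' y' = 0
      · simp only [hDdef] at h4
        rw [h5, zero_sub, neg_ne_zero] at h4
        exact ⟨hvP x' (left_ne_zero_of_mul h4), hρ y' (right_ne_zero_of_mul h4)⟩
      · exact hCblk x' y' h5
    have hDz : ∀ b, D i b = 0 ∧ D k b = 0 := by
      refine h3 D hDblk fun s b hb => ?_
      have h4 := hB0' (Sum.inr s) b hb
      simp only [Sum.elim_inr] at h4
      have e1 : g s + rw1 a0 ρ = g s * (1 + rw1 a0 ρ) := by
        rw [mul_add, mul_one, hgr]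
      have e2 : (g s + rw1 a0 ρ) * B' * ((1 - rw1 a0 ρ) * h s) =
          g s * ((1 + rw1 a0 ρ) * B' * (1 - rw1 a0 ρ)) * h s := by
        rw [e1]
        simp only [mul_assoc]
      rw [e2, hDV, mul_add, add_mul, Matrix.add_apply, hVz s b hb, add_zero] at h4
      exact h4
    have hvi : v i = 0 ∧ v k = 0 := by
      obtain ⟨h4, h5⟩ := hDz y0
      obtain ⟨h6, h7⟩ := hCz y0
      simp only [hDdef] at h4 h5
      rw [h6, zero_sub, neg_eq_zero] at h4
      rw [h7, zero_sub, neg_eq_zero] at h5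
      exact ⟨(mul_eq_zero.1 h4).resolve_right hB0, (mul_eq_zero.1 h5).resolve_right hB0⟩
    intro b
    rw [hBC, Matrix.add_apply, Matrix.add_apply, (hCz b).1, (hCz b).2]
    simp only [cl1, hvi.1, hvi.2, ite_self, add_zero, and_self]

theorem out_final {n : ℕ} (hn : 3 ≤ n) {L : Fin n → Fin n → ℝ} (hL : LinearIndependent ℝ L)
    {c : ℝ} (hc : 0 < c) (hlow : ∀ p : Fin n → ℤ, p ≠ 0 → c ≤ |∏ i, ∑ j, L i j * (p j : ℝ)|)
    (hnot : ¬ Cn L) {i k : Fin n} (hik : i ≠ k) {Q : Finset (Fin n)}
    (hno : ∀ b ∈ Q, ¬ Pr (closure (orb L)) i b) (P : Finset (Fin n)) (hi : i ∈ P) (hk : k ∈ P)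
    (hQ : ∀ b ∈ Q, b ∉ P) (hP' : Pᶜ.Nonempty)
    (hco : ∀ m : ℕ, 1 ≤ m → m ≤ P.card → Nat.Coprime m n) :
    ¬ InvO (closure (orb L)) i k Q P := by
  induction P using Finset.strongInduction with
  | H P ih =>
    intro hinv
    obtain ⟨a, ha, hai, hak, h⟩ := out_step hn hL hc hlow hnot hik hi hk hQ hP'
      (hco P.card (Finset.card_pos.2 ⟨i, hi⟩) le_rfl) hno hinv
    refine ih (P.erase a) (Finset.erase_ssubset ha) (Finset.mem_erase.2 ⟨Ne.symm hai, hi⟩)
      (Finset.mem_erase.2 ⟨Ne.symm hak, hk⟩) (fun b hb h1 => hQ b hb (Finset.mem_of_mem_erase h1))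
      ?_ ?_ h
    · obtain ⟨x, hx⟩ := hP'
      refine ⟨x, ?_⟩
      rw [Finset.mem_compl] at hx ⊢
      exact fun h1 => hx (Finset.mem_of_mem_erase h1)
    · intro m h1 h2
      exact hco m h1 (h2.trans (Finset.card_le_card (Finset.erase_subset _ _)))

private theorem tv_apply {n : ℕ} {i k : Fin n} (c : ℝ) (a b : Fin n) :
    (Matrix.transvection i k c : Matrix (Fin n) (Fin n) ℝ) a b =
      (if a = b then 1 else 0) + if i = a ∧ k = b then c else 0 := by
  classical
  rw [Matrix.transvection, Matrix.add_apply, Matrix.one_apply, Matrix.single_apply]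

private theorem tv_mem {n : ℕ} {P : Finset (Fin n)} {i k : Fin n} (hik : i ≠ k) (hi : i ∈ P)
    (hk : k ∈ P) (c : ℝ) : Mem P i k (Matrix.transvection i k c) := by
  refine ⟨fun a b hab => ?_, fun a _ b _ hne hab => ?_, fun a _ => ?_⟩
  · rw [tv_apply] at hab
    by_cases h1 : a = b
    · rw [h1]
    · by_cases h2 : i = a ∧ k = b
      · rw [← h2.1, ← h2.2]
        exact ⟨fun _ => hk, fun _ => hi⟩
      · rw [if_neg h1, if_neg h2, add_zero] at hab
        exact absurd rfl hab
  · rw [tv_apply, if_neg hne, zero_add] at hab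
    by_cases h2 : i = a ∧ k = b
    · exact ⟨h2.1.symm, h2.2.symm⟩
    · rw [if_neg h2] at hab
      exact absurd rfl hab
  · rw [tv_apply, if_pos rfl, if_neg, add_zero]
    rintro ⟨rfl, h2⟩
    exact hik h2.symm

private theorem one_mem {n : ℕ} {P : Finset (Fin n)} {i k : Fin n} :
    Mem P i k (1 : Matrix (Fin n) (Fin n) ℝ) := by
  classical
  refine ⟨fun a b hab => ?_, fun a _ b _ hne hab => ?_, fun a _ => Matrix.one_apply_eq a⟩
  · by_cases h1 : a = b
    · rw [h1]
    · rw [Matrix.one_apply_ne h1] at hab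
      exact absurd rfl hab
  · rw [Matrix.one_apply_ne hne] at hab
    exact absurd rfl hab

open Classical in
theorem out_deg {n : ℕ} (hn : 3 ≤ n) {L : Fin n → Fin n → ℝ} (hL : LinearIndependent ℝ L)
    {c : ℝ} (hc : 0 < c) (hlow : ∀ p : Fin n → ℤ, p ≠ 0 → c ≤ |∏ i, ∑ j, L i j * (p j : ℝ)|)
    (hnot : ¬ Cn L) (i : Fin n) :
    n.minFac - 1 ≤ (Finset.univ.filter fun k => k ≠ i ∧ Pr (closure (orb L)) i k).card := by
  by_contra hlt
  push Not at hlt
  set N := Finset.univ.filter fun k => k ≠ i ∧ Pr (closure (orb L)) i k with hN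
  have hmn : n.minFac ≤ n := Nat.minFac_le (by omega)
  have hiN : i ∉ N := by
    rw [hN, Finset.mem_filter]
    rintro ⟨-, h, -⟩
    exact h rfl
  have hPcard : (insert i N).card = N.card + 1 := Finset.card_insert_of_notMem hiN
  have hsing : ({i} : Finset (Fin n))ᶜ.Nonempty := by
    rw [← Finset.card_pos, Finset.card_compl, Finset.card_singleton, Fintype.card_fin]
    omega
  obtain ⟨l, hl, k, hk, hpr⟩ := leave hn hL hc hlow hnot {i} (Finset.singleton_nonempty i) hsing
    (Or.inl (Finset.card_singleton i))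
  rw [Finset.mem_singleton] at hl hk
  subst hl
  have hkN : k ∈ N := by
    rw [hN, Finset.mem_filter]
    exact ⟨Finset.mem_univ _, hk, hpr⟩
  have hP' : (insert l N)ᶜ.Nonempty := by
    rw [← Finset.card_pos, Finset.card_compl, Fintype.card_fin, hPcard]
    omega
  refine out_final hn hL hc hlow hnot (i := l) (k := k) (Ne.symm hk) (Q := (insert l N)ᶜ) ?_
    (insert l N) (Finset.mem_insert_self _ _) (Finset.mem_insert_of_mem hkN)
    (fun b hb => Finset.mem_compl.1 hb) hP' ?_ ?_
  · intro b hb hprb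
    rw [Finset.mem_compl, Finset.mem_insert, not_or] at hb
    apply hb.2
    rw [hN, Finset.mem_filter]
    exact ⟨Finset.mem_univ _, hb.1, hprb⟩
  · intro m h1 h2
    rw [hPcard] at h2
    by_contra hcon
    have h3 : 2 ≤ Nat.gcd m n := by
      have h4 : 0 < Nat.gcd m n := Nat.gcd_pos_of_pos_left _ (by omega)
      have h5 : Nat.gcd m n ≠ 1 := hcon
      omega
    have h6 := Nat.minFac_le_of_dvd h3 (Nat.gcd_dvd_right m n)
    have h7 := Nat.le_of_dvd (by omega) (Nat.gcd_dvd_left m n)
    omega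
  · obtain ⟨Z, hZ, Z', hZ', hrel⟩ := hpr
    have hZZ' : ac (Matrix.transvection l k 1) Z = Z' := by
      funext a b
      rw [ac_transvection, hrel]
    have hlk : l ≠ k := Ne.symm hk
    have hlP : l ∈ insert l N := Finset.mem_insert_self _ _
    have hkP : k ∈ insert l N := Finset.mem_insert_of_mem hkN
    refine ⟨Z, hZ, Bool, fun s => if s then Matrix.transvection l k 1 else 1,
      fun s => if s then Matrix.transvection l k (-1) else 1, ?_, ?_, ?_, ?_, ?_, ?_, ?_, ?_, ?_⟩
    · rintro (_ | _)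
      · simp
      · simp only [if_true]
        rw [Matrix.transvection_mul_transvection_same _ _ hlk]
        simp
    · rintro (_ | _)
      · simp only [Bool.false_eq_true, if_false]
        rw [ac_one]
        exact hZ
      · simp only [if_true]
        rw [hZZ']
        exact hZ'
    · rintro (_ | _)
      · simp only [Bool.false_eq_true, if_false]
        exact (one_mem (P := insert l N) (i := l) (k := k)).comp
      · simp only [if_true]
        exact (tv_mem hlk hlP hkP 1).comp
    · rintro (_ | _)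
      · simp only [Bool.false_eq_true, if_false]
        exact (one_mem (P := insert l N) (i := l) (k := k)).comp
      · simp only [if_true]
        exact (tv_mem hlk hlP hkP (-1)).comp
    · rintro (_ | _)
      · simp only [Bool.false_eq_true, if_false]
        exact (one_mem (P := insert l N) (i := l) (k := k)).off
      · simp only [if_true]
        exact (tv_mem hlk hlP hkP 1).off
    · rintro (_ | _)
      · simp only [Bool.false_eq_true, if_false]
        exact (one_mem (P := insert l N) (i := l) (k := k)).off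
      · simp only [if_true]
        exact (tv_mem hlk hlP hkP (-1)).off
    · rintro (_ | _)
      · simp only [Bool.false_eq_true, if_false]
        exact (one_mem (P := insert l N) (i := l) (k := k)).diag
      · simp only [if_true]
        exact (tv_mem hlk hlP hkP 1).diag
    · rintro (_ | _)
      · simp only [Bool.false_eq_true, if_false]
        exact (one_mem (P := insert l N) (i := l) (k := k)).diag
      · simp only [if_true]
        exact (tv_mem hlk hlP hkP (-1)).diag
    · intro B hB hB0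
      have e1 : ∀ b, B l b = 0 := by
        intro b
        by_contra hcon
        have h1 := (hB l b hcon).2
        have h2 := hB0 false b (Finset.mem_compl.2 h1)
        simp only [Bool.false_eq_true, if_false, one_mul, mul_one] at h2
        exact hcon h2
      intro b
      refine ⟨e1 b, ?_⟩
      by_contra hcon
      have h1 := (hB k b hcon).2
      have h2 := hB0 true b (Finset.mem_compl.2 h1)
      simp only [if_true] at h2
      have h3 : b ≠ k := by
        rintro rfl
        exact h1 hkP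
      rw [conj_apply, if_pos rfl, if_neg h3, e1, zero_add, sub_zero] at h2
      exact hcon h2

end Pool.Agent.Work.MP_77d073_nt.Root
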